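import Pool.Agent.J4H69.AX.Gam

set_option autoImplicit false

/-!
The theorem for points, for the values of the Gamma function at arbitrary affine images of the
coordinates.
-/

namespace Pool.Agent.J4H69.AX

open Filter Topology Set Metric
open scoped ContDiff

/-- the two fields agree -/
lemma adjoin_inv {F : Type} [Field F] [Algebra F ℂ] {n : ℕ} (z u : Fin n → ℂ) :
    IntermediateField.adjoin F (range z ∪ range fun i => (u i)⁻¹) =
      IntermediateField.adjoin F (range z ∪ range u) := by
  apply le_antisymm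
  · rw [IntermediateField.adjoin_le_iff]
    rintro x (⟨i, rfl⟩ | ⟨i, rfl⟩)
    · exact IntermediateField.subset_adjoin _ _ (Or.inl ⟨i, rfl⟩)
    · exact inv_mem (IntermediateField.subset_adjoin F _ (Or.inr ⟨i, rfl⟩))
  · rw [IntermediateField.adjoin_le_iff]
    rintro x (⟨i, rfl⟩ | ⟨i, rfl⟩)
    · exact IntermediateField.subset_adjoin _ _ (Or.inl ⟨i, rfl⟩)
    · have h : (u i)⁻¹ ∈ IntermediateField.adjoin F (range z ∪ range fun i => (u i)⁻¹) :=
        IntermediateField.subset_adjoin F _ (Or.inr ⟨i, rfl⟩)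
      have h2 := inv_mem h
      rw [inv_inv] at h2
      exact h2

theorem points_affine (F : Type) [Field F] [Algebra F ℂ] [Countable F] (n m : ℕ) :
    Thin m {z : Fin n → ℂ | ∃ a b : Fin n → F, (∀ i, a i ≠ 0) ∧
      Algebra.trdeg F (IntermediateField.adjoin F (range z ∪ range fun i =>
        Complex.Gamma (algebraMap F ℂ (a i) * z i + algebraMap F ℂ (b i)))) ≤
        Algebra.trdeg F (IntermediateField.adjoin F (range z)) + m} := by
  have hsub : {z : Fin n → ℂ | ∃ a b : Fin n → F, (∀ i, a i ≠ 0) ∧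
      Algebra.trdeg F (IntermediateField.adjoin F (range z ∪ range fun i =>
        Complex.Gamma (algebraMap F ℂ (a i) * z i + algebraMap F ℂ (b i)))) ≤
        Algebra.trdeg F (IntermediateField.adjoin F (range z)) + m} ⊆
      ⋃ a : {a : Fin n → F // ∀ i, a i ≠ 0}, ⋃ b : Fin n → F, {z : Fin n → ℂ |
        Algebra.trdeg F (IntermediateField.adjoin F (range z ∪ range fun i =>
          (Complex.Gamma (algebraMap F ℂ (a.1 i) * z i + algebraMap F ℂ (b i)))⁻¹)) ≤
        Algebra.trdeg F (IntermediateField.adjoin F (range z)) + m} := by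
    rintro z ⟨a, b, ha, hz⟩
    refine mem_iUnion.2 ⟨⟨a, ha⟩, mem_iUnion.2 ⟨b, ?_⟩⟩
    have e : Algebra.trdeg F (IntermediateField.adjoin F (range z ∪ range fun i =>
          (Complex.Gamma (algebraMap F ℂ (a i) * z i + algebraMap F ℂ (b i)))⁻¹)) =
        Algebra.trdeg F (IntermediateField.adjoin F (range z ∪ range fun i =>
          Complex.Gamma (algebraMap F ℂ (a i) * z i + algebraMap F ℂ (b i)))) :=
      congrArg (fun K : IntermediateField F ℂ => Algebra.trdeg F K) (adjoin_inv z fun i =>
        Complex.Gamma (algebraMap F ℂ (a i) * z i + algebraMap F ℂ (b i)))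
    exact e.le.trans hz
  refine Thin.mono (thin_union fun a => thin_union fun b => ?_) hsub
  refine points (F := F) (g := fun i w =>
    (Complex.Gamma (algebraMap F ℂ (a.1 i) * w + algebraMap F ℂ (b i)))⁻¹) (fun i => ?_) m
  have h0 : algebraMap F ℂ (a.1 i) ≠ 0 := by
    rw [Ne, map_eq_zero_iff _ (algebraMap F ℂ).injective]
    exact a.2 i
  exact dvb_affine gam_dvb h0

end Pool.Agent.J4H69.AX
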