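import Pool.Agent.J4H69.AX.Thin

set_option autoImplicit false

/-!
Let `g_1, …, g_n` be entire functions of one variable with infinitely many zeros. The set of the
`z` in `ℂ ^ n` at which given algebraic equations express all `g_i (z_i)` algebraically through `z`
is countable.
-/

namespace Pool.Agent.J4H69.AX

open Filter Topology Set Metric
open scoped ContDiff

/-- entire functions from which arbitrarily many zeros can be divided off, the quotient being
different from zero at a given point -/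
def Dvb (g : ℂ → ℂ) : Prop :=
  Differentiable ℂ g ∧ ∀ (w : ℂ) (D : ℕ), ∃ (M : ℕ) (r : Fin M → ℂ) (k : ℂ → ℂ), D ≤ M ∧
    Differentiable ℂ k ∧ (∀ x, g x = (∏ j, (x - r j)) * k x) ∧ k w ≠ 0

lemma est {M : ℕ} {r : Fin M → ℂ} {k g : ℂ → ℂ} (hk : Differentiable ℂ k)
    (hg : ∀ x, g x = (∏ j, (x - r j)) * k x) :
    ∃ C : ℝ, 0 ≤ C ∧ ∀ x, (1 + ‖x‖) ^ M * ‖k x‖ ≤ C * (1 + ‖g x‖) := by
  set ρ : ℝ := 1 + 2 * ∑ j, ‖r j‖ with hρ
  have hs0 : 0 ≤ ∑ j, ‖r j‖ := Finset.sum_nonneg fun _ _ => norm_nonneg _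
  obtain ⟨C1, hC1⟩ := (isCompact_closedBall (0 : ℂ) ρ).exists_bound_of_continuousOn
    hk.continuous.continuousOn
  refine ⟨4 ^ M + (1 + ρ) ^ M * |C1|, by positivity, fun x => ?_⟩
  rcases le_or_gt ‖x‖ ρ with hx | hx
  · have h1 : ‖k x‖ ≤ |C1| := (hC1 x (by simpa using hx)).trans (le_abs_self _)
    calc (1 + ‖x‖) ^ M * ‖k x‖ ≤ (1 + ρ) ^ M * |C1| := by gcongr
      _ ≤ (4 ^ M + (1 + ρ) ^ M * |C1|) * 1 := by
          rw [mul_one]
          have : (0 : ℝ) ≤ 4 ^ M := by positivity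
          linarith
      _ ≤ _ := by
          have h2 : (1 : ℝ) ≤ 1 + ‖g x‖ := by linarith [norm_nonneg (g x)]
          gcongr
  · have h1 : ∀ j, (1 + ‖x‖) / 4 ≤ ‖x - r j‖ := by
      intro j
      have h2 : ‖r j‖ ≤ ∑ j, ‖r j‖ :=
        Finset.single_le_sum (f := fun j => ‖r j‖) (fun _ _ => norm_nonneg _) (Finset.mem_univ j)
      have h3 := norm_sub_norm_le x (r j)
      linarith
    have h4 : ((1 + ‖x‖) / 4) ^ M ≤ ∏ j, ‖x - r j‖ := by
      calc ((1 + ‖x‖) / 4) ^ M = ∏ _j : Fin M, ((1 + ‖x‖) / 4) := by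
            rw [Finset.prod_const, Finset.card_univ, Fintype.card_fin]
        _ ≤ _ := Finset.prod_le_prod (fun _ _ => by positivity) (fun j _ => h1 j)
    have h5 : ‖g x‖ = (∏ j, ‖x - r j‖) * ‖k x‖ := by rw [hg, norm_mul, norm_prod]
    calc (1 + ‖x‖) ^ M * ‖k x‖ = 4 ^ M * (((1 + ‖x‖) / 4) ^ M * ‖k x‖) := by
          have e := div_pow (1 + ‖x‖) 4 M
          rw [e]
          field_simp
      _ ≤ 4 ^ M * ‖g x‖ := by
          rw [h5]
          gcongr
      _ ≤ (4 ^ M + (1 + ρ) ^ M * |C1|) * (1 + ‖g x‖) := by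
          have e1 : (0 : ℝ) ≤ 4 ^ M := by positivity
          have e2 : 0 ≤ (1 + ρ) ^ M * |C1| := by positivity
          nlinarith [norm_nonneg (g x), mul_nonneg e2 (norm_nonneg (g x))]

variable {F : Type} [Field F] [Algebra F ℂ] {n : ℕ}

lemma aeval_cont (P : MvPolynomial (Fin n) F) :
    Differentiable ℂ (fun z : Fin n → ℂ => MvPolynomial.aeval z P) := by
  have h : AnalyticOnNhd ℂ (fun z : Fin n → ℂ => MvPolynomial.aeval z P) univ := by
    refine AnalyticOnNhd.aeval_mvPolynomial (A := F) (fun i => ?_) P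
    exact (ContinuousLinearMap.proj (R := ℂ) (φ := fun _ : Fin n => ℂ) i).analyticOnNhd _
  exact fun z => (h z (mem_univ _)).differentiableAt

lemma growth (P : MvPolynomial (Fin n) F) :
    ∃ (C : ℝ) (D : ℕ), 0 ≤ C ∧ ∀ z : Fin n → ℂ,
      ‖MvPolynomial.aeval z P‖ ≤ C * (1 + ‖z‖) ^ D := by
  induction P using MvPolynomial.induction_on with
  | C a =>
    refine ⟨‖algebraMap F ℂ a‖, 0, norm_nonneg _, fun z => ?_⟩
    simp
  | add p q hp hq =>
    obtain ⟨C1, D1, h1, h2⟩ := hp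
    obtain ⟨C2, D2, h3, h4⟩ := hq
    refine ⟨C1 + C2, max D1 D2, by positivity, fun z => ?_⟩
    have hz : 1 ≤ 1 + ‖z‖ := by linarith [norm_nonneg z]
    rw [map_add, add_mul]
    refine (norm_add_le _ _).trans (add_le_add ((h2 z).trans ?_) ((h4 z).trans ?_))
    · exact mul_le_mul_of_nonneg_left (pow_le_pow_right₀ hz (le_max_left _ _)) h1
    · exact mul_le_mul_of_nonneg_left (pow_le_pow_right₀ hz (le_max_right _ _)) h3
  | mul_X p i hp =>
    obtain ⟨C1, D1, h1, h2⟩ := hp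
    refine ⟨C1, D1 + 1, h1, fun z => ?_⟩
    rw [map_mul, MvPolynomial.aeval_X, norm_mul, pow_succ, ← mul_assoc]
    refine mul_le_mul (h2 z) ?_ (norm_nonneg _) (by positivity)
    linarith [norm_le_pi_norm z i]

/-- a bound for the solutions of a polynomial equation -/
lemma root_bound (d : ℕ) (a : ℕ → MvPolynomial (Fin n) F) :
    ∃ (C : ℝ) (D : ℕ), 0 ≤ C ∧ ∀ (z : Fin n → ℂ) (y : ℂ),
      ∑ l ∈ Finset.range (d + 1), MvPolynomial.aeval z (a l) * y ^ l = 0 →
      ‖MvPolynomial.aeval z (a d)‖ * (1 + ‖y‖) ≤ C * (1 + ‖z‖) ^ D := by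
  choose C D hC hCD using fun l => growth (a l)
  refine ⟨2 * ∑ l ∈ Finset.range (d + 1), C l, ∑ l ∈ Finset.range (d + 1), D l, ?_, ?_⟩
  · have : 0 ≤ ∑ l ∈ Finset.range (d + 1), C l := Finset.sum_nonneg fun l _ => hC l
    positivity
  intro z y h
  have hz : 1 ≤ 1 + ‖z‖ := by linarith [norm_nonneg z]
  set A := ∑ l ∈ Finset.range (d + 1), ‖MvPolynomial.aeval z (a l)‖ with hA
  have hA1 : A ≤ (∑ l ∈ Finset.range (d + 1), C l) *
      (1 + ‖z‖) ^ (∑ l ∈ Finset.range (d + 1), D l) := by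
    rw [hA, Finset.sum_mul]
    refine Finset.sum_le_sum fun l hl => (hCD l z).trans ?_
    refine mul_le_mul_of_nonneg_left (pow_le_pow_right₀ hz ?_) (hC l)
    exact Finset.single_le_sum (f := D) (fun _ _ => Nat.zero_le _) hl
  have hA0 : ∀ l ∈ Finset.range (d + 1), ‖MvPolynomial.aeval z (a l)‖ ≤ A := fun l hl =>
    Finset.single_le_sum (f := fun l => ‖MvPolynomial.aeval z (a l)‖)
      (fun _ _ => norm_nonneg _) hl
  have hd : ‖MvPolynomial.aeval z (a d)‖ ≤ A := hA0 d (by simp)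
  have hA' : 0 ≤ A := (norm_nonneg _).trans hd
  suffices hs : ‖MvPolynomial.aeval z (a d)‖ * (1 + ‖y‖) ≤ 2 * A by
    refine hs.trans ?_
    rw [mul_assoc]
    exact mul_le_mul_of_nonneg_left hA1 (by norm_num)
  rcases le_or_gt ‖y‖ 1 with hy | hy
  · nlinarith [norm_nonneg y, norm_nonneg (MvPolynomial.aeval z (a d))]
  rcases Nat.eq_zero_or_pos d with h0 | h0
  · subst h0
    simp only [zero_add, Finset.range_one, Finset.sum_singleton, pow_zero, mul_one] at h
    rw [h, norm_zero, zero_mul]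
    positivity
  obtain ⟨e, rfl⟩ := Nat.exists_eq_succ_of_ne_zero h0.ne'
  rw [Finset.sum_range_succ] at h
  have h1 : ‖MvPolynomial.aeval z (a (e + 1))‖ * ‖y‖ ^ (e + 1) ≤ A * ‖y‖ ^ e := by
    have h2 : MvPolynomial.aeval z (a (e + 1)) * y ^ (e + 1) =
        -∑ l ∈ Finset.range (e + 1), MvPolynomial.aeval z (a l) * y ^ l :=
      eq_neg_of_add_eq_zero_right h
    rw [← norm_pow, ← norm_mul, h2, norm_neg]
    refine (norm_sum_le _ _).trans ?_
    calc ∑ l ∈ Finset.range (e + 1), ‖MvPolynomial.aeval z (a l) * y ^ l‖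
        ≤ ∑ l ∈ Finset.range (e + 1), ‖MvPolynomial.aeval z (a l)‖ * ‖y‖ ^ e := by
          refine Finset.sum_le_sum fun l hl => ?_
          rw [norm_mul, norm_pow]
          refine mul_le_mul_of_nonneg_left (pow_le_pow_right₀ hy.le ?_) (norm_nonneg _)
          have := Finset.mem_range.1 hl
          omega
      _ = (∑ l ∈ Finset.range (e + 1), ‖MvPolynomial.aeval z (a l)‖) * ‖y‖ ^ e := by
          rw [Finset.sum_mul]
      _ ≤ A * ‖y‖ ^ e := by
          refine mul_le_mul_of_nonneg_right ?_ (by positivity)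
          exact Finset.sum_le_sum_of_subset_of_nonneg
            (Finset.range_subset_range.2 (Nat.le_succ _)) (fun _ _ _ => norm_nonneg _)
  have hpos : 0 < ‖y‖ ^ e := by positivity
  have h3 : ‖MvPolynomial.aeval z (a (e + 1))‖ * ‖y‖ ≤ A := by
    rw [pow_succ, ← mul_assoc, mul_right_comm] at h1
    exact le_of_mul_le_mul_right h1 hpos
  nlinarith [norm_nonneg (MvPolynomial.aeval z (a (e + 1)))]

lemma one_add_le_prod (z : Fin n → ℂ) : 1 + ‖z‖ ≤ ∏ i, (1 + ‖z i‖) := by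
  have h1 : ∀ i, (1 : ℝ) ≤ 1 + ‖z i‖ := fun i => by linarith [norm_nonneg (z i)]
  have h2 : (1 : ℝ) ≤ ∏ i, (1 + ‖z i‖) := by
    have : (∏ _j : Fin n, (1 : ℝ)) ≤ ∏ j, (1 + ‖z j‖) :=
      Finset.prod_le_prod (fun _ _ => zero_le_one) (fun j _ => h1 j)
    simpa using this
  have h3 : ‖z‖ ≤ ∏ i, (1 + ‖z i‖) - 1 := by
    rw [pi_norm_le_iff_of_nonneg (by linarith)]
    intro i
    have h4 : 1 + ‖z i‖ ≤ ∏ i, (1 + ‖z i‖) := by
      rw [← Finset.mul_prod_erase _ _ (Finset.mem_univ i)]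
      have h5 : (1 : ℝ) ≤ ∏ j ∈ Finset.univ.erase i, (1 + ‖z j‖) := by
        have : (∏ _j ∈ Finset.univ.erase i, (1 : ℝ)) ≤ ∏ j ∈ Finset.univ.erase i, (1 + ‖z j‖) :=
          Finset.prod_le_prod (fun _ _ => zero_le_one) (fun j _ => h1 j)
        simpa using this
      nlinarith [h1 i]
    linarith
  linarith

/-- an analytic map with injective derivative is injective near the point -/
lemma inj_near {E' E : Type} [NormedAddCommGroup E'] [NormedSpace ℂ E'] [FiniteDimensional ℂ E']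
    [NormedAddCommGroup E] [NormedSpace ℂ E] [CompleteSpace E] {φ : E' → E} {x : E'}
    (hφ : AnalyticAt ℂ φ x) (hi : Function.Injective (fderiv ℂ φ x)) :
    ∃ W : Set E', IsOpen W ∧ x ∈ W ∧ InjOn φ W := by
  obtain ⟨K, hK, hanti⟩ := (fderiv ℂ φ x).toLinearMap.exists_antilipschitzWith
    (LinearMap.ker_eq_bot.2 hi)
  have hs : HasStrictFDerivAt φ (fderiv ℂ φ x) x := hφ.hasStrictFDerivAt
  have hK' : (0 : ℝ) < K := hK
  have h1 : ∀ᶠ p : E' × E' in 𝓝 (x, x), ‖φ p.1 - φ p.2 - fderiv ℂ φ x (p.1 - p.2)‖ ≤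
      (1 / (2 * K)) * ‖p.1 - p.2‖ := by
    have := hs.isLittleO
    exact this.def (by positivity)
  rw [nhds_prod_eq] at h1
  obtain ⟨W, hW, hWs⟩ := (eventually_prod_self_iff'.1 h1)
  obtain ⟨W', hW'W, hW'o, hxW'⟩ := _root_.mem_nhds_iff.1 hW
  refine ⟨W', hW'o, hxW', fun y hy z hz hyz => ?_⟩
  have h2 := hWs y (hW'W hy) z (hW'W hz)
  simp only [hyz, sub_self, zero_sub, norm_neg] at h2
  have h3 : ‖y - z‖ ≤ K * ‖fderiv ℂ φ x (y - z)‖ := by
    have := hanti.le_mul_dist y z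
    rw [dist_eq_norm, dist_eq_norm] at this
    have e : (fderiv ℂ φ x).toLinearMap y - (fderiv ℂ φ x).toLinearMap z =
        fderiv ℂ φ x (y - z) := by
      rw [map_sub]
      rfl
    rwa [e] at this
  have h4 : ‖y - z‖ ≤ ‖y - z‖ / 2 := by
    calc ‖y - z‖ ≤ K * ‖fderiv ℂ φ x (y - z)‖ := h3
      _ ≤ K * (1 / (2 * K) * ‖y - z‖) := by gcongr
      _ = ‖y - z‖ / 2 := by field_simp
  have h5 : ‖y - z‖ ≤ 0 := by linarith
  exact sub_eq_zero.1 (norm_le_zero_iff.1 h5)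

lemma piece_uncountable {m : ℕ} {E : Type} {φ : (Fin (m + 1) → ℂ) → E}
    {W : Set (Fin (m + 1) → ℂ)} (hW : IsOpen W) (hne : W.Nonempty) (hinj : InjOn φ W) :
    ¬ (φ '' W).Countable := by
  intro h
  have h1 : W.Countable := Set.countable_of_injective_of_countable_image hinj h
  obtain ⟨x, hx, hx'⟩ := (h1.dense_compl ℂ).inter_open_nonempty W hW hne
  exact hx' hx

/-- the points of a piece are in the perfect kernel -/
lemma piece_kernel {m : ℕ} {E : Type} [NormedAddCommGroup E] [NormedSpace ℂ E] [CompleteSpace E]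
    {Z V D : Set E} (hV : V.Countable) (hD : IsClosed D) (hZ : Z = V ∪ D)
    {φ : (Fin (m + 1) → ℂ) → E} (hφ : AnalyticAt ℂ φ 0) (hi : Function.Injective (fderiv ℂ φ 0))
    (hZφ : ∀ᶠ s in 𝓝 (0 : Fin (m + 1) → ℂ), φ s ∈ Z) :
    ∀ᶠ s in 𝓝 (0 : Fin (m + 1) → ℂ), φ s ∈ D := by
  obtain ⟨W, hW, h0, hinj⟩ := inj_near hφ hi
  obtain ⟨ε, hε, hball⟩ := Metric.eventually_nhds_iff_ball.1
    (hφ.eventually_analyticAt.and (hZφ.and (hW.mem_nhds h0)))
  filter_upwards [ball_mem_nhds _ hε] with s hs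
  by_contra hsD
  have hcont : ContinuousOn φ (ball 0 ε) := fun t ht => (hball t ht).1.continuousAt.continuousWithinAt
  have ho : IsOpen (ball 0 ε ∩ φ ⁻¹' Dᶜ) := hcont.isOpen_inter_preimage isOpen_ball hD.isOpen_compl
  refine piece_uncountable ho ⟨s, hs, hsD⟩
    (hinj.mono fun t ht => (hball t ht.1).2.2) (hV.mono ?_)
  rintro _ ⟨t, ⟨ht, htD⟩, rfl⟩
  have h1 := (hball t ht).2.1
  rw [hZ] at h1
  exact h1.resolve_right htD

/-- the equations -/
def Zr (g : Fin n → ℂ → ℂ) (d : Fin n → ℕ) (a : Fin n → ℕ → MvPolynomial (Fin n) F) :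
    Set (Fin n → ℂ) :=
  {z | ∀ i, ∑ l ∈ Finset.range (d i + 1), MvPolynomial.aeval z (a i l) * g i (z i) ^ l = 0}

/-- **The main theorem in dimension zero.** -/
theorem cls {g : Fin n → ℂ → ℂ} (hg : ∀ i, Dvb (g i)) (d : Fin n → ℕ)
    (a : Fin n → ℕ → MvPolynomial (Fin n) F) :
    {z | z ∈ Zr g d a ∧ ∀ i, MvPolynomial.aeval z (a i (d i)) ≠ 0}.Countable := by
  by_contra hunc
  set Z := Zr g d a with hZ
  have hdiff : ∀ i, Differentiable ℂ (fun z : Fin n → ℂ =>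
      ∑ l ∈ Finset.range (d i + 1), MvPolynomial.aeval z (a i l) * g i (z i) ^ l) := by
    intro i
    refine Differentiable.fun_sum fun l _ => ?_
    refine (aeval_cont _).mul (Differentiable.pow ?_ _)
    exact (hg i).1.comp (differentiable_apply i)
  have hZc : IsClosed Z := by
    have : Z = ⋂ i, {z : Fin n → ℂ |
        ∑ l ∈ Finset.range (d i + 1), MvPolynomial.aeval z (a i l) * g i (z i) ^ l = 0} := by
      ext z
      simp only [hZ, Zr, mem_iInter]
      rfl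
    rw [this]
    exact isClosed_iInter fun i => isClosed_eq (hdiff i).continuous continuous_const
  set h : Fin n → (Fin n → ℂ) → ℂ := fun i z =>
    ∑ l ∈ Finset.range (d i + 1), MvPolynomial.aeval z (a i l) * g i (z i) ^ l with hh
  have han : ∀ i, AnalyticOnNhd ℂ (h i) univ := by
    intro i
    have h1 : AnalyticOnNhd ℂ (fun z : Fin n → ℂ => g i (z i)) univ := fun z _ =>
      AnalyticAt.comp (g := g i) (f := fun z : Fin n → ℂ => z i) ((hg i).1.analyticAt (z i))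
        ((ContinuousLinearMap.proj (R := ℂ) (φ := fun _ : Fin n => ℂ) i).analyticAt z)
    rw [hh]
    refine Finset.analyticOnNhd_fun_sum _ fun l _ => AnalyticOnNhd.mul ?_ (h1.pow l)
    refine AnalyticOnNhd.aeval_mvPolynomial (A := F) (fun i => ?_) _
    exact (ContinuousLinearMap.proj (R := ℂ) (φ := fun _ : Fin n => ℂ) i).analyticOnNhd _
  have hZ' : {x : Fin n → ℂ | x ∈ univ ∧ ∀ k, h k x = 0} = Z := by
    ext z
    simp only [hZ, Zr, mem_univ, true_and, hh]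
  have hB := thin_zero_countable
    (thin_nopiece 0 n (Fin n) (Fintype.card_fin n) (Fin n) univ h isOpen_univ han)
  rw [hZ'] at hB
  set B := {x : Fin n → ℂ | x ∈ univ ∧ (∀ k, h k x = 0) ∧ ¬ HasPiece 0 Z x} with hBdef
  obtain ⟨V, D, hV, hD, hVD⟩ := exists_countable_union_perfect_of_isClosed hZc
  obtain ⟨p, ⟨hpZ, hpa⟩, hpD⟩ : ∃ p ∈ {z | z ∈ Z ∧ ∀ i, MvPolynomial.aeval z (a i (d i)) ≠ 0},
      p ∈ D := by
    by_contra hcon
    push Not at hcon
    apply hunc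
    refine hV.mono fun z hz => ?_
    have h1 : z ∈ V ∪ D := hVD ▸ hz.1
    exact h1.resolve_right (hcon z hz)
  have hdisc : ∀ x ∈ D, x ∉ B → HasDisc D x := by
    intro x hx hxB
    have hxZ : x ∈ Z := hVD ▸ Or.inr hx
    have hxh : ∀ k, h k x = 0 := by
      rw [← hZ'] at hxZ
      exact hxZ.2
    have hpiece : HasPiece 0 Z x := by
      by_contra hcon
      exact hxB ⟨mem_univ _, hxh, hcon⟩
    obtain ⟨φ, h1, h2, h3, h4⟩ := hpiece
    have h5 := piece_kernel hV hD.closed hVD h1 h3 h4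
    obtain ⟨W, hW, h0W, hinj⟩ := inj_near h1 h3
    set c : ℂ →L[ℂ] (Fin (0 + 1) → ℂ) := ContinuousLinearMap.pi fun _ => ContinuousLinearMap.id ℂ ℂ
      with hc
    have hc0 : c 0 = 0 := map_zero c
    refine ⟨fun s => φ (c s), ?_, ?_, ?_, ?_⟩
    · have : AnalyticAt ℂ φ (c 0) := by rw [hc0]; exact h1
      exact this.comp (c.analyticAt 0)
    · simp only [hc0, h2]
    · have : Tendsto c (𝓝 0) (𝓝 0) := by
        have := c.continuous.tendsto 0
        rwa [hc0] at this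
      exact this.eventually h5
    · intro hcon
      have h6 : ∀ᶠ s in 𝓝 (0 : ℂ), c s ∈ W := by
        have : Tendsto c (𝓝 0) (𝓝 0) := by
          have := c.continuous.tendsto 0
          rwa [hc0] at this
        exact this.eventually (hW.mem_nhds h0W)
      have h8 : ∀ᶠ s in 𝓝[≠] (0 : ℂ), (φ (c s) = x ∧ c s ∈ W) ∧ s ≠ 0 :=
        ((hcon.and h6).filter_mono nhdsWithin_le_nhds).and self_mem_nhdsWithin
      obtain ⟨s, ⟨hs1, hs2⟩, hs3⟩ := h8.exists
      apply hs3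
      have h7 : c s = 0 := hinj hs2 h0W (by rw [hs1, h2])
      exact congrFun h7 0
  -- the function which tends to zero
  choose C1 D1 hC1 hCD using fun i => root_bound (d i) (a i)
  set D0 := ∑ i, D1 i with hD0
  choose M r k hM hkd hgk hkp using fun i => (hg i).2 (p i) (D0 + 1)
  choose C2 hC2 hC2k using fun i => est (hkd i) (hgk i)
  set G : (Fin n → ℂ) → ℂ := fun z => ∏ i, (MvPolynomial.aeval z (a i (d i)) * k i (z i)) with hG
  have hGd : Differentiable ℂ G := by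
    have h1 : ∀ i, Differentiable ℂ
        (fun z : Fin n → ℂ => MvPolynomial.aeval z (a i (d i)) * k i (z i)) := fun i =>
      (aeval_cont _).mul ((hkd i).comp (differentiable_apply i))
    have h2 : AnalyticOnNhd ℂ (fun z : Fin n → ℂ =>
        ∏ i, (MvPolynomial.aeval z (a i (d i)) * k i (z i))) univ := by
      refine Finset.analyticOnNhd_fun_prod _ fun i _ => AnalyticOnNhd.mul ?_ fun z _ => ?_
      · refine AnalyticOnNhd.aeval_mvPolynomial (A := F) (fun i => ?_) _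
        exact (ContinuousLinearMap.proj (R := ℂ) (φ := fun _ : Fin n => ℂ) i).analyticOnNhd _
      · exact AnalyticAt.comp (g := k i) (f := fun z : Fin n → ℂ => z i) ((hkd i).analyticAt (z i))
          ((ContinuousLinearMap.proj (R := ℂ) (φ := fun _ : Fin n => ℂ) i).analyticAt z)
    exact fun z => (h2 z (mem_univ _)).differentiableAt
  have hGp : G p ≠ 0 := Finset.prod_ne_zero_iff.2 fun i _ => mul_ne_zero (hpa i) (hkp i)
  have hGb : ∀ z ∈ Z, ‖G z‖ * (1 + ‖z‖) ≤ ∏ i, (C2 i * C1 i) := by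
    intro z hz
    have hz1 : (1 : ℝ) ≤ 1 + ‖z‖ := by linarith [norm_nonneg z]
    have h1 : ∀ i, ‖MvPolynomial.aeval z (a i (d i)) * k i (z i)‖ * (1 + ‖z i‖) ^ (D0 + 1) ≤
        (C2 i * C1 i) * (1 + ‖z‖) ^ (D1 i) := by
      intro i
      have hzi : (1 : ℝ) ≤ 1 + ‖z i‖ := by linarith [norm_nonneg (z i)]
      calc ‖MvPolynomial.aeval z (a i (d i)) * k i (z i)‖ * (1 + ‖z i‖) ^ (D0 + 1)
          ≤ ‖MvPolynomial.aeval z (a i (d i)) * k i (z i)‖ * (1 + ‖z i‖) ^ (M i) :=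
            mul_le_mul_of_nonneg_left (pow_le_pow_right₀ hzi (hM i)) (norm_nonneg _)
        _ = ‖MvPolynomial.aeval z (a i (d i))‖ * ((1 + ‖z i‖) ^ (M i) * ‖k i (z i)‖) := by
            rw [norm_mul]; ring
        _ ≤ ‖MvPolynomial.aeval z (a i (d i))‖ * (C2 i * (1 + ‖g i (z i)‖)) :=
            mul_le_mul_of_nonneg_left (hC2k i _) (norm_nonneg _)
        _ = C2 i * (‖MvPolynomial.aeval z (a i (d i))‖ * (1 + ‖g i (z i)‖)) := by ring
        _ ≤ C2 i * (C1 i * (1 + ‖z‖) ^ (D1 i)) :=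
            mul_le_mul_of_nonneg_left (hCD i z _ (hz i)) (hC2 i)
        _ = _ := by ring
    have h2 : ‖G z‖ * (1 + ‖z‖) ^ (D0 + 1) ≤ (∏ i, (C2 i * C1 i)) * (1 + ‖z‖) ^ D0 := by
      calc ‖G z‖ * (1 + ‖z‖) ^ (D0 + 1)
          ≤ ‖G z‖ * (∏ i, (1 + ‖z i‖)) ^ (D0 + 1) := by
            have := one_add_le_prod z
            gcongr
        _ = ∏ i, (‖MvPolynomial.aeval z (a i (d i)) * k i (z i)‖ * (1 + ‖z i‖) ^ (D0 + 1)) := by
            rw [hG, norm_prod, ← Finset.prod_pow, ← Finset.prod_mul_distrib]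
        _ ≤ ∏ i, ((C2 i * C1 i) * (1 + ‖z‖) ^ (D1 i)) :=
            Finset.prod_le_prod (fun i _ => by positivity) (fun i _ => h1 i)
        _ = _ := by rw [Finset.prod_mul_distrib, Finset.prod_pow_eq_pow_sum]
    rw [pow_succ, ← mul_assoc, mul_right_comm] at h2
    exact le_of_mul_le_mul_right h2 (by positivity)
  have hPnn : 0 ≤ ∏ i, (C2 i * C1 i) :=
    Finset.prod_nonneg fun i _ => mul_nonneg (hC2 i) (hC1 i)
  apply hGp
  refine maxp hD.closed (fun x hx => ?_) hB hdisc hGd (fun η hη => ?_) p hpD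
  · have := hD.acc x hx
    rw [accPt_principal_iff_clusterPt] at this
    exact mem_closure_iff_clusterPt.2 this
  · refine ⟨(∏ i, (C2 i * C1 i)) / η, fun z hz hzR => ?_⟩
    have h1 := hGb z (hVD ▸ Or.inr hz)
    rw [div_le_iff₀ hη] at hzR
    have hz0 : 0 < 1 + ‖z‖ := by linarith [norm_nonneg z]
    by_contra hcon
    push Not at hcon
    have : η * (1 + ‖z‖) < ‖G z‖ * (1 + ‖z‖) := mul_lt_mul_of_pos_right hcon hz0
    nlinarith

end Pool.Agent.J4H69.AX
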