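import Pool.Agent.J4H69.AX.Piece

set_option autoImplicit false

/-!
The functional form: let `f_1, …, f_n` be analytic functions of several variables, `d` of which have
linearly independent differentials at some point. Then `d` of the functions `g_i (f_i)` are
algebraically independent over the field generated by `f_1, …, f_n`.
-/

namespace Pool.Agent.J4H69.AX

open Filter Topology Set Metric
open scoped ContDiff Polynomial

variable {n : ℕ}

/-- algebraic independence of the `y_j`, `j ∈ J`, over the field generated by the `f_i` -/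
def Ind {T : Type} (D : Set T) (f : Fin n → T → ℂ) (y : Fin n → T → ℂ) (J : Finset (Fin n)) :
    Prop :=
  ∀ P : MvPolynomial ↥J (MvPolynomial (Fin n) ℂ),
    (∃ t ∈ D, P.map (MvPolynomial.eval fun i => f i t) ≠ 0) →
    ∃ t ∈ D, MvPolynomial.eval (fun j : ↥J => y j t)
      (P.map (MvPolynomial.eval fun i => f i t)) ≠ 0

lemma ind_subset {T : Type} {D : Set T} {f y : Fin n → T → ℂ} {J J' : Finset (Fin n)}
    (h : Ind D f y J) (hJ : J' ⊆ J) : Ind D f y J' := by
  intro P ⟨t, ht, hP⟩
  set e : ↥J' → ↥J := fun j => ⟨j, hJ j.2⟩ with he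
  have hei : Function.Injective e := fun a b hab => by
    apply Subtype.ext
    exact congrArg (fun x : ↥J => (x : Fin n)) hab
  have hmap : ∀ t, (MvPolynomial.rename e P).map (MvPolynomial.eval fun i => f i t) =
      MvPolynomial.rename e (P.map (MvPolynomial.eval fun i => f i t)) := fun t =>
    MvPolynomial.map_rename _ _ _
  obtain ⟨t', ht', h'⟩ := h (MvPolynomial.rename e P) ⟨t, ht, by
    rw [hmap]
    exact fun h0 => hP ((map_eq_zero_iff _ (MvPolynomial.rename_injective _ hei)).1 h0)⟩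
  refine ⟨t', ht', ?_⟩
  rw [hmap, MvPolynomial.eval_rename] at h'
  exact h'

lemma ind_empty {T : Type} {D : Set T} {f y : Fin n → T → ℂ} : Ind D f y ∅ := by
  intro P ⟨t, ht, hP⟩
  refine ⟨t, ht, ?_⟩
  have he : IsEmpty ↥(∅ : Finset (Fin n)) := ⟨fun i => absurd i.2 (Finset.notMem_empty _)⟩
  rw [MvPolynomial.eq_C_of_isEmpty (P.map (MvPolynomial.eval fun i => f i t))] at hP ⊢
  rw [MvPolynomial.eval_C]
  intro h0
  rw [h0, map_zero] at hP
  exact hP rfl

/-- the two ways to look at a polynomial in `z` and `y` -/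
noncomputable def flat (J : Finset (Fin n)) (A : MvPolynomial ↥J (MvPolynomial (Fin n) ℂ)) :
    MvPolynomial (Fin n ⊕ ↥J) ℂ :=
  MvPolynomial.rename Sum.swap ((MvPolynomial.sumAlgEquiv ℂ ↥J (Fin n)).symm A)

lemma flat_aeval (J : Finset (Fin n)) (z : Fin n → ℂ) (y : ↥J → ℂ)
    (A : MvPolynomial ↥J (MvPolynomial (Fin n) ℂ)) :
    MvPolynomial.aeval (Sum.elim z y) (flat J A) =
      MvPolynomial.eval y (A.map (MvPolynomial.eval z)) := by
  obtain ⟨Q, rfl⟩ := (MvPolynomial.sumAlgEquiv ℂ ↥J (Fin n)).surjective A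
  unfold flat
  rw [AlgEquiv.symm_apply_apply, MvPolynomial.aeval_rename]
  have h1 : (Sum.elim z y ∘ Sum.swap : ↥J ⊕ Fin n → ℂ) = Sum.elim y z := by
    funext i
    rcases i with i | i <;> rfl
  rw [h1]
  have h : (MvPolynomial.aeval (Sum.elim y z) : MvPolynomial (↥J ⊕ Fin n) ℂ →ₐ[ℂ] ℂ).toRingHom =
      ((MvPolynomial.eval y).comp (MvPolynomial.map (MvPolynomial.eval z))).comp
        (MvPolynomial.sumAlgEquiv ℂ ↥J (Fin n)).toRingEquiv.toRingHom := by
    apply MvPolynomial.ringHom_ext
    · intro r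
      simp
    · intro i
      rcases i with i | i <;> simp
  exact congrArg (fun φ : MvPolynomial (↥J ⊕ Fin n) ℂ →+* ℂ => φ Q) h

lemma opt_eval' {R : Type} [CommRing R] {σ : Type} (ev : R →+* ℂ) (x : σ → ℂ) (y : ℂ)
    (Q : MvPolynomial (Option σ) R) :
    MvPolynomial.eval (fun o : Option σ => o.elim y x) (Q.map ev) =
      ((MvPolynomial.optionEquivLeft R σ Q).map
        ((MvPolynomial.eval x).comp (MvPolynomial.map ev))).eval y := by
  induction Q using MvPolynomial.induction_on with
  | C r =>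
    rw [MvPolynomial.map_C, MvPolynomial.eval_C, MvPolynomial.optionEquivLeft_C]
    simp
  | add p q hp hq => simp only [map_add, hp, hq, Polynomial.map_add, Polynomial.eval_add]
  | mul_X p i hp =>
    rw [map_mul, map_mul, map_mul, hp, Polynomial.map_mul, Polynomial.eval_mul,
      MvPolynomial.map_X, MvPolynomial.eval_X]
    congr 1
    rcases i with _ | i
    · simp [MvPolynomial.optionEquivLeft_X_none]
    · simp [MvPolynomial.optionEquivLeft_X_some]

lemma opt_map {R : Type} [CommRing R] {σ : Type} (ev : R →+* ℂ) (Q : MvPolynomial (Option σ) R) :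
    MvPolynomial.optionEquivLeft ℂ σ (Q.map ev) =
      (MvPolynomial.optionEquivLeft R σ Q).map (MvPolynomial.map ev) := by
  induction Q using MvPolynomial.induction_on with
  | C r =>
    rw [MvPolynomial.map_C, MvPolynomial.optionEquivLeft_C, MvPolynomial.optionEquivLeft_C]
    simp
  | add p q hp hq => simp only [map_add, hp, hq, Polynomial.map_add]
  | mul_X p i hp =>
    rw [map_mul, map_mul, map_mul, hp, Polynomial.map_mul, MvPolynomial.map_X]
    congr 1
    rcases i with _ | i
    · simp [MvPolynomial.optionEquivLeft_X_none]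
    · simp [MvPolynomial.optionEquivLeft_X_some]

/-- a relation with a leading coefficient which is not identically zero -/
lemma rel_fun {T : Type} {D : Set T} {f y : Fin n → T → ℂ} {J : Finset (Fin n)} {j : Fin n}
    (hJ : Ind D f y J) (hj : j ∉ J) (h : ¬ Ind D f y (insert j J)) :
    ∃ (d : ℕ) (a : ℕ → MvPolynomial (Fin n ⊕ ↥J) ℂ),
      (∀ t ∈ D, ∑ l ∈ Finset.range (d + 1),
        MvPolynomial.aeval (Sum.elim (fun i => f i t) fun i : ↥J => y i t) (a l) * y j t ^ l = 0) ∧
      ∃ t ∈ D, MvPolynomial.aeval (Sum.elim (fun i => f i t) fun i : ↥J => y i t) (a d) ≠ 0 := by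
  classical
  unfold Ind at h
  push Not at h
  obtain ⟨P, ⟨t₀, ht₀, hP⟩, hP0⟩ := h
  set e : ↥(insert j J) → Option ↥J := fun i => if h : (i : Fin n) = j then none else
    some ⟨i, (Finset.mem_insert.1 i.2).resolve_left h⟩ with he
  have hei : Function.Injective e := by
    rintro ⟨a, ha⟩ ⟨b, hb⟩ hab
    by_cases h1 : a = j <;> by_cases h2 : b = j <;> simp_all
  set Q := MvPolynomial.rename e P with hQ
  set A := MvPolynomial.optionEquivLeft (MvPolynomial (Fin n) ℂ) ↥J Q with hA
  have hval : ∀ t ∈ D, ((A.map ((MvPolynomial.eval fun i : ↥J => y i t).comp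
      (MvPolynomial.map (MvPolynomial.eval fun i => f i t)))).eval (y j t)) = 0 := by
    intro t ht
    rw [hA, ← opt_eval', hQ, MvPolynomial.map_rename, MvPolynomial.eval_rename]
    have h1 : ((fun o : Option ↥J => o.elim (y j t) fun i : ↥J => y i t) ∘ e) =
        fun i : ↥(insert j J) => y i t := by
      funext ⟨i, hi⟩
      by_cases h : i = j
      · subst h
        simp [he]
      · simp [he, h]
    rw [h1]
    exact hP0 t ht
  -- some coefficient is not zero along `f`
  have hex : ∃ l, ∃ t ∈ D, (A.coeff l).map (MvPolynomial.eval fun i => f i t) ≠ 0 := by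
    by_contra hcon
    push Not at hcon
    apply hP
    have h1 : MvPolynomial.optionEquivLeft ℂ ↥J (Q.map (MvPolynomial.eval fun i => f i t₀)) = 0 := by
      rw [opt_map]
      ext1 l
      rw [Polynomial.coeff_map, Polynomial.coeff_zero]
      exact hcon l t₀ ht₀
    have h2 : Q.map (MvPolynomial.eval fun i => f i t₀) = 0 :=
      (map_eq_zero_iff _ (MvPolynomial.optionEquivLeft ℂ ↥J).injective).1 h1
    rw [hQ, MvPolynomial.map_rename] at h2
    exact (map_eq_zero_iff _ (MvPolynomial.rename_injective _ hei)).1 h2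
  set S : Finset ℕ := (Finset.range (A.natDegree + 1)).filter
    (fun l => ∃ t ∈ D, (A.coeff l).map (MvPolynomial.eval fun i => f i t) ≠ 0) with hS
  have hSne : S.Nonempty := by
    obtain ⟨l, t, ht, hl⟩ := hex
    refine ⟨l, ?_⟩
    rw [hS, Finset.mem_filter]
    refine ⟨?_, t, ht, hl⟩
    rw [Finset.mem_range]
    by_contra hcon
    apply hl
    rw [Polynomial.coeff_eq_zero_of_natDegree_lt (by omega), map_zero]
  set d := S.max' hSne with hd
  have hdS : d ∈ S := S.max'_mem hSne
  obtain ⟨hdr, hdn⟩ := Finset.mem_filter.1 hdS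
  have hlarge : ∀ l, d < l → ∀ t ∈ D, (A.coeff l).map (MvPolynomial.eval fun i => f i t) = 0 := by
    intro l hl t ht
    by_contra hne
    have hlS : l ∈ S := by
      rw [hS, Finset.mem_filter]
      refine ⟨?_, t, ht, hne⟩
      rw [Finset.mem_range]
      by_contra hcon
      apply hne
      rw [Polynomial.coeff_eq_zero_of_natDegree_lt (by omega), map_zero]
    have := S.le_max' l hlS
    omega
  refine ⟨d, fun l => flat J (A.coeff l), ?_, ?_⟩
  · intro t ht
    have h1 := hval t ht
    rw [Polynomial.eval_map, Polynomial.eval₂_eq_sum_range] at h1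
    have h2 : d ≤ A.natDegree := by
      have := Finset.mem_range.1 hdr
      omega
    have h3 : ∑ l ∈ Finset.range (d + 1),
        ((MvPolynomial.eval fun i : ↥J => y i t).comp
          (MvPolynomial.map (MvPolynomial.eval fun i => f i t))) (A.coeff l) * y j t ^ l =
        ∑ l ∈ Finset.range (A.natDegree + 1),
        ((MvPolynomial.eval fun i : ↥J => y i t).comp
          (MvPolynomial.map (MvPolynomial.eval fun i => f i t))) (A.coeff l) * y j t ^ l := by
      apply Finset.sum_subset (Finset.range_subset_range.2 (by omega))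
      intro l _ hl
      have hl' : d < l := by
        rw [Finset.mem_range] at hl
        omega
      rw [RingHom.comp_apply, hlarge l hl' t ht, map_zero, zero_mul]
    rw [h1] at h3
    rw [← h3]
    refine Finset.sum_congr rfl fun l _ => ?_
    rw [flat_aeval]
    rfl
  · obtain ⟨t, ht, h1⟩ := hJ (A.coeff d) hdn
    refine ⟨t, ht, ?_⟩
    rw [flat_aeval]
    exact h1

/-- **The functional theorem.** -/
theorem functional {N d : ℕ} {D : Set (Fin N → ℂ)} (hD : IsOpen D) (hp : IsPreconnected D)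
    {f : Fin n → (Fin N → ℂ) → ℂ} (hf : ∀ i, AnalyticOnNhd ℂ (f i) D)
    {g : Fin n → ℂ → ℂ} (hg : ∀ i, Dvb (g i)) {t₀ : Fin N → ℂ} (ht₀ : t₀ ∈ D)
    {e : Fin d → Fin n} (hli : LinearIndependent ℂ (fun k => fderiv ℂ (f (e k)) t₀)) :
    ∃ J : Finset (Fin n), J.card = d ∧ Ind D f (fun i t => g i (f i t)) J := by
  classical
  set y : Fin n → (Fin N → ℂ) → ℂ := fun i t => g i (f i t) with hy
  have hya : ∀ i, AnalyticOnNhd ℂ (y i) D := fun i t ht =>
    ((hg i).1.analyticAt (f i t)).comp (hf i t ht)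
  obtain ⟨J, hJ, hmax⟩ := Finset.exists_max_image
    (Finset.univ.filter (fun J : Finset (Fin n) => Ind D f y J))
    Finset.card ⟨∅, by
      rw [Finset.mem_filter]
      exact ⟨Finset.mem_univ _, ind_empty⟩⟩
  rw [Finset.mem_filter] at hJ
  by_cases hcard : d ≤ J.card
  · obtain ⟨J', hJ', hJc⟩ := Finset.exists_subset_card_eq hcard
    exact ⟨J', hJc, ind_subset hJ.2 hJ'⟩
  exfalso
  push Not at hcard
  obtain ⟨m, rfl⟩ : ∃ m, d = m + 1 := ⟨d - 1, by omega⟩
  have hrel : ∀ j, ∃ (dd : ℕ) (a : ℕ → MvPolynomial (Fin n ⊕ ↥J) ℂ),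
      (∀ t ∈ D, ∑ l ∈ Finset.range (dd + 1),
        MvPolynomial.aeval (Sum.elim (fun i => f i t) fun i : ↥J => y i t) (a l) * y j t ^ l = 0) ∧
      ∃ t ∈ D, MvPolynomial.aeval (Sum.elim (fun i => f i t) fun i : ↥J => y i t) (a dd) ≠ 0 := by
    intro j
    by_cases hj : j ∈ J
    · refine ⟨1, fun l => if l = 0 then -MvPolynomial.X (Sum.inr ⟨j, hj⟩) else 1, ?_, ?_⟩
      · intro t _
        rw [Finset.sum_range_succ, Finset.sum_range_one]
        simp
      · exact ⟨t₀, ht₀, by simp⟩
    · refine rel_fun hJ.2 hj fun h => ?_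
      have h3 := hmax (insert j J) (by
        rw [Finset.mem_filter]
        exact ⟨Finset.mem_univ _, h⟩)
      rw [Finset.card_insert_of_notMem hj] at h3
      omega
  choose dd a hrel1 hrel2 using hrel
  set lam : Fin n → (Fin N → ℂ) → ℂ := fun j t =>
    MvPolynomial.aeval (Sum.elim (fun i => f i t) fun i : ↥J => y i t) (a j (dd j)) with hlam
  have hlama : ∀ j, AnalyticOnNhd ℂ (lam j) D := by
    intro j
    refine AnalyticOnNhd.aeval_mvPolynomial (A := ℂ) ?_ (a j (dd j))
    rintro (i | i)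
    · exact hf i
    · exact hya i
  -- dual vectors
  obtain ⟨v, hv⟩ : ∃ v : Fin (m + 1) → (Fin N → ℂ), ∀ k l,
      fderiv ℂ (f (e k)) t₀ (v l) = if k = l then 1 else 0 := by
    have hli' : LinearIndependent ℂ (fun k => (fderiv ℂ (f (e k)) t₀ : (Fin N → ℂ) →ₗ[ℂ] ℂ)) :=
      hli.map' (ContinuousLinearMap.coeLM ℂ) (LinearMap.ker_eq_bot.2
        ContinuousLinearMap.coe_injective)
    set Φ : (Fin N → ℂ) →ₗ[ℂ] (Fin (m + 1) → ℂ) :=
      LinearMap.pi (fun k => (fderiv ℂ (f (e k)) t₀ : (Fin N → ℂ) →ₗ[ℂ] ℂ)) with hΦ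
    have hsurj : Function.Surjective Φ := by
      rw [← LinearMap.range_eq_top]
      by_contra hne
      obtain ⟨ψ, hψ, hψ0⟩ := Submodule.exists_dual_map_eq_bot_of_lt_top
        (lt_top_iff_ne_top.2 hne) inferInstance
      have hψ1 : ∀ x, ψ (Φ x) = 0 := by
        intro x
        have h1 : ψ (Φ x) ∈ (LinearMap.range Φ).map ψ := ⟨Φ x, ⟨x, rfl⟩, rfl⟩
        rw [hψ0] at h1
        exact h1
      have h2 : ∑ k, ψ (Pi.single k 1) • (fderiv ℂ (f (e k)) t₀ : (Fin N → ℂ) →ₗ[ℂ] ℂ) = 0 := by
        refine LinearMap.ext fun x => ?_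
        have h3 := hψ1 x
        rw [LinearMap.pi_apply_eq_sum_univ ψ] at h3
        rw [LinearMap.sum_apply, LinearMap.zero_apply, ← h3]
        refine Finset.sum_congr rfl fun k _ => ?_
        rw [LinearMap.smul_apply, smul_eq_mul, smul_eq_mul, mul_comm]
        congr 2
        funext i
        rw [Pi.single_apply]
        simp [eq_comm]
      have h4 := Fintype.linearIndependent_iff.1 hli' _ h2
      apply hψ
      apply LinearMap.pi_ext'
      intro k
      apply LinearMap.ext_ring
      simpa using h4 k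
    choose v hv using fun l : Fin (m + 1) => hsurj (Pi.single l 1)
    refine ⟨v, fun k l => ?_⟩
    have := congrFun (hv l) k
    rw [Pi.single_apply] at this
    exact this
  -- the determinant
  set Δ : (Fin N → ℂ) → ℂ := fun t =>
    Matrix.det (Matrix.of fun k l : Fin (m + 1) => fderiv ℂ (f (e k)) t (v l)) with hΔ
  have hΔ0 : Δ t₀ ≠ 0 := by
    have : (Matrix.of fun k l : Fin (m + 1) => fderiv ℂ (f (e k)) t₀ (v l)) = 1 := by
      ext k l
      rw [Matrix.of_apply, hv, Matrix.one_apply]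
    rw [hΔ]
    simp only [this, Matrix.det_one]
    exact one_ne_zero
  have hΔc : ContinuousAt Δ t₀ := by
    have h1 : ∀ k l : Fin (m + 1), ContinuousAt (fun t => fderiv ℂ (f (e k)) t (v l)) t₀ := by
      intro k l
      have h2 : AnalyticAt ℂ (fderiv ℂ (f (e k))) t₀ := (hf (e k) t₀ ht₀).fderiv
      exact ((ContinuousLinearMap.apply ℂ ℂ (v l)).continuous.continuousAt).comp h2.continuousAt
    have h3 : ContinuousAt (fun t => (Matrix.of fun k l : Fin (m + 1) =>
        fderiv ℂ (f (e k)) t (v l))) t₀ :=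
      continuousAt_pi.2 fun k => continuousAt_pi.2 fun l => h1 k l
    exact (Continuous.matrix_det continuous_id).continuousAt.comp h3
  -- a good point
  obtain ⟨t₁, ht₁D, ht₁Δ, ht₁l⟩ : ∃ t₁ ∈ D, Δ t₁ ≠ 0 ∧ ∀ j, lam j t₁ ≠ 0 := by
    have hprod : AnalyticOnNhd ℂ (fun t => ∏ j, lam j t) D :=
      Finset.analyticOnNhd_fun_prod _ fun j _ => hlama j
    by_contra hcon
    push Not at hcon
    have h1 : ∀ᶠ t in 𝓝 t₀, (∏ j, lam j t) = 0 := by
      filter_upwards [hΔc.eventually_ne hΔ0, hD.mem_nhds ht₀] with t h2 h3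
      obtain ⟨j, hj⟩ := hcon t h3 h2
      exact Finset.prod_eq_zero (Finset.mem_univ j) hj
    have h2 := hprod.eqOn_zero_of_preconnected_of_eventuallyEq_zero hp ht₀ h1
    -- the product of functions that are not identically zero
    have h3 : ∀ s : Finset (Fin n), (∀ t ∈ D, ∏ j ∈ s, lam j t = 0) → ∃ j ∈ s, ∀ t ∈ D,
        lam j t = 0 := by
      intro s
      induction s using Finset.induction_on with
      | empty =>
        intro h
        have := h t₀ ht₀
        simp at this
      | insert j s hjs ih =>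
        intro h
        by_cases h4 : ∀ t ∈ D, lam j t = 0
        · exact ⟨j, Finset.mem_insert_self _ _, h4⟩
        · push Not at h4
          obtain ⟨t₂, ht₂, h5⟩ := h4
          have h6 : ∀ᶠ t in 𝓝 t₂, (∏ j ∈ s, lam j t) = 0 := by
            filter_upwards [(hlama j t₂ ht₂).continuousAt.eventually_ne h5,
              hD.mem_nhds ht₂] with t h7 h8
            have h9 := h t h8
            rw [Finset.prod_insert hjs] at h9
            exact (mul_eq_zero.1 h9).resolve_left h7
          have h7 : AnalyticOnNhd ℂ (fun t => ∏ j ∈ s, lam j t) D :=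
            Finset.analyticOnNhd_fun_prod _ fun j _ => hlama j
          obtain ⟨j', hj', h8⟩ := ih
            (fun t ht => h7.eqOn_zero_of_preconnected_of_eventuallyEq_zero hp ht₂ h6 ht)
          exact ⟨j', Finset.mem_insert_of_mem hj', h8⟩
    obtain ⟨j, -, hj⟩ := h3 Finset.univ (fun t ht => h2 ht)
    obtain ⟨t, ht, h4⟩ := hrel2 j
    exact h4 (hj t ht)
  -- the piece
  set L : (Fin (m + 1) → ℂ) →L[ℂ] (Fin N → ℂ) :=
    ∑ l, (ContinuousLinearMap.proj (R := ℂ) (φ := fun _ : Fin (m + 1) => ℂ) l).smulRight (v l)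
    with hL
  have hLs : ∀ s, L s = ∑ l, s l • v l := by
    intro s
    rw [hL]
    simp
  set ψ : (Fin (m + 1) → ℂ) → (Fin N → ℂ) := fun s => t₁ + L s with hψ
  have hψd : HasFDerivAt ψ L 0 := L.hasFDerivAt.const_add t₁
  have hψa : AnalyticAt ℂ ψ 0 := analyticAt_const.add (L.analyticAt _)
  have hψ0 : ψ 0 = t₁ := by rw [hψ]; simp
  have hF : AnalyticAt ℂ (fun t i => f i t) t₁ := analyticAt_pi_iff.2 fun i => hf i t₁ ht₁D
  have hF' : AnalyticAt ℂ (fun t i => f i t) (ψ 0) := by rw [hψ0]; exact hF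
  refine no_piece (F := ℂ) hg (m := m) (by omega) dd a (fun i => f i t₁)
    ⟨(fun t i => f i t) ∘ ψ, hF'.comp hψa, ?_, ?_, ?_⟩
  · change (fun i => f i (ψ 0)) = _
    rw [hψ0]
  · have h1 : HasFDerivAt ((fun t i => f i t) ∘ ψ) ((fderiv ℂ (fun t i => f i t) t₁).comp L) 0 := by
      have h2 : HasFDerivAt (fun t i => f i t) (fderiv ℂ (fun t i => f i t) t₁) (ψ 0) := by
        rw [hψ0]
        exact hF.differentiableAt.hasFDerivAt
      exact h2.comp 0 hψd
    rw [h1.fderiv]
    rw [injective_iff_map_eq_zero]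
    intro s hs
    have h3 : (Matrix.of fun k l : Fin (m + 1) => fderiv ℂ (f (e k)) t₁ (v l)).mulVec s = 0 := by
      funext k
      have h4 : fderiv ℂ (f (e k)) t₁ (L s) = 0 := by
        have h5 := congrFun hs (e k)
        rw [ContinuousLinearMap.comp_apply] at h5
        have h6 : HasFDerivAt (fun t => f (e k) t)
            ((ContinuousLinearMap.proj (R := ℂ) (φ := fun _ : Fin n => ℂ) (e k)).comp
              (fderiv ℂ (fun t i => f i t) t₁)) t₁ :=
          (hasFDerivAt_pi'.1 hF.differentiableAt.hasFDerivAt) (e k)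
        have h7 : fderiv ℂ (f (e k)) t₁ =
            (ContinuousLinearMap.proj (R := ℂ) (φ := fun _ : Fin n => ℂ) (e k)).comp
              (fderiv ℂ (fun t i => f i t) t₁) := h6.fderiv
        rw [h7]
        exact h5
      rw [hLs, map_sum] at h4
      rw [Matrix.mulVec, dotProduct, Pi.zero_apply, ← h4]
      refine Finset.sum_congr rfl fun l _ => ?_
      rw [map_smul, smul_eq_mul, Matrix.of_apply, mul_comm]
    exact Matrix.eq_zero_of_mulVec_eq_zero ht₁Δ h3
  · have h1 : ∀ᶠ s in 𝓝 (0 : Fin (m + 1) → ℂ), ψ s ∈ D ∧ ∀ j, lam j (ψ s) ≠ 0 := by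
      have h2 : ∀ᶠ t in 𝓝 t₁, t ∈ D ∧ ∀ j, lam j t ≠ 0 := by
        have h21 : ∀ᶠ t in 𝓝 t₁, t ∈ D := hD.mem_nhds ht₁D
        refine h21.and ?_
        rw [eventually_all]
        exact fun j => (hlama j t₁ ht₁D).continuousAt.eventually_ne (ht₁l j)
      have h3 : Tendsto ψ (𝓝 0) (𝓝 t₁) := by
        have := hψd.continuousAt.tendsto
        rwa [hψ0] at this
      exact h3.eventually h2
    filter_upwards [h1] with s hs
    intro j
    exact ⟨hrel1 j (ψ s) hs.1, hs.2 j⟩

end Pool.Agent.J4H69.AX
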