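import Pool.Agent.J4H69.AX.Piece

set_option autoImplicit false

/-!
Points `z` at which the transcendence degree of `(z, g (z))` exceeds the transcendence degree of `z`
by at most `m`: they are covered by countably many analytic images of open subsets of `ℂ ^ m`.
-/

namespace Pool.Agent.J4H69.AX

open Filter Topology Set Metric
open scoped ContDiff Polynomial

variable {F : Type} [Field F] [Algebra F ℂ] {n : ℕ}

lemma opt_eval {σ : Type} (x : σ → ℂ) (y : ℂ) (Q : MvPolynomial (Option σ) F) :
    MvPolynomial.aeval (fun o : Option σ => o.elim y x) Q =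
      ((MvPolynomial.optionEquivLeft F σ Q).map
        (MvPolynomial.aeval x : MvPolynomial σ F →ₐ[F] ℂ).toRingHom).eval y := by
  induction Q using MvPolynomial.induction_on with
  | C r =>
    rw [MvPolynomial.aeval_C, MvPolynomial.optionEquivLeft_C]
    simp
  | add p q hp hq => simp only [map_add, hp, hq, Polynomial.map_add, Polynomial.eval_add]
  | mul_X p i hp =>
    rw [map_mul, map_mul, hp, Polynomial.map_mul, Polynomial.eval_mul, MvPolynomial.aeval_X]
    congr 1
    rcases i with _ | i
    · simp [MvPolynomial.optionEquivLeft_X_none]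
    · simp [MvPolynomial.optionEquivLeft_X_some]

lemma rel {σ : Type} {x : σ → ℂ} (hx : AlgebraicIndependent F x) {y : ℂ}
    (h : ¬ AlgebraicIndependent F (fun o : Option σ => o.elim y x)) :
    ∃ (d : ℕ) (P : (MvPolynomial σ F)[X]),
      (∑ l ∈ Finset.range (d + 1), MvPolynomial.aeval x (P.coeff l) * y ^ l = 0) ∧
      MvPolynomial.aeval x (P.coeff d) ≠ 0 := by
  rw [algebraicIndependent_iff] at h
  push Not at h
  obtain ⟨Q, hQ, hQ0⟩ := h
  set P := MvPolynomial.optionEquivLeft F σ Q with hP
  have hP0 : P ≠ 0 := fun h0 =>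
    hQ0 ((map_eq_zero_iff _ (MvPolynomial.optionEquivLeft F σ).injective).1 h0)
  refine ⟨P.natDegree, P, ?_, ?_⟩
  · rw [opt_eval, Polynomial.eval_map, Polynomial.eval₂_eq_sum_range] at hQ
    exact hQ
  · intro h0
    apply hP0
    rw [← Polynomial.leadingCoeff_eq_zero]
    exact (map_eq_zero_iff _ hx).1 h0

open scoped IntermediateField.algebraAdjoinAdjoin in
lemma alg1 (z : Fin n → ℂ) : ∃ J : Finset (Fin n), AlgebraicIndependent F (fun j : ↥J => z j) ∧
    Algebra.trdeg F (IntermediateField.adjoin F (range z)) ≤ (J.card : Cardinal) := by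
  classical
  set A := Algebra.adjoin F (range z) with hA
  set s : Set A := ((↑) : A → ℂ) ⁻¹' (range z) with hs
  have htop : Algebra.adjoin F s = ⊤ := Algebra.adjoin_adjoin_coe_preimage
  have halg : Algebra.IsAlgebraic (Algebra.adjoin F s) A :=
    ⟨fun x => isAlgebraic_algebraMap (⟨x, by rw [htop]; trivial⟩ : Algebra.adjoin F s)⟩
  obtain ⟨t, hts, ht⟩ := exists_isTranscendenceBasis_subset (R := F) s
  have hcard : Cardinal.mk t = Algebra.trdeg F A := ht.cardinalMk_eq_trdeg
  have htr : Algebra.trdeg F (IntermediateField.adjoin F (range z)) = Algebra.trdeg F A := by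
    have h1 := _root_.trdeg_add_eq F A (A := IntermediateField.adjoin F (range z))
    rw [_root_.trdeg_eq_zero (R := A), add_zero] at h1
    exact h1.symm
  have hex : ∀ x : t, ∃ i, z i = (x.1 : ℂ) := fun x => hts x.2
  choose e he using hex
  have hei : Function.Injective e := by
    intro x y hxy
    apply Subtype.ext
    apply Subtype.ext
    rw [← he x, ← he y, hxy]
  have hfin : Finite t := Finite.of_injective e hei
  have : Fintype t := Fintype.ofFinite t
  refine ⟨Finset.univ.image e, ?_, ?_⟩
  · have hr : ∀ j : ↥(Finset.univ.image e), ∃ x : t, e x = j := fun j => by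
      obtain ⟨x, -, hx⟩ := Finset.mem_image.1 j.2
      exact ⟨x, hx⟩
    choose r hr using hr
    have h1 : AlgebraicIndependent F (fun x : t => (x.1 : ℂ)) :=
      ht.1.map' (f := A.val) Subtype.val_injective
    have h2 : (fun j : ↥(Finset.univ.image e) => z j) = (fun x : t => (x.1 : ℂ)) ∘ r := by
      funext j
      rw [Function.comp_apply, ← he, hr]
    rw [h2]
    refine h1.comp _ fun j k hjk => ?_
    apply Subtype.ext
    rw [← hr j, ← hr k, hjk]
  · rw [htr, ← hcard, Finset.card_image_of_injective _ hei, Finset.card_univ,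
      Cardinal.mk_fintype]

lemma indep_le (K : IntermediateField F ℂ) {σ : Type} [Fintype σ] {x : σ → ℂ}
    (hx : ∀ s, x s ∈ K) (h : AlgebraicIndependent F x) :
    (Fintype.card σ : Cardinal) ≤ Algebra.trdeg F K := by
  have h1 : AlgebraicIndependent F (fun s => (⟨x s, hx s⟩ : K)) := by
    apply AlgebraicIndependent.of_comp K.val
    exact h
  have h2 := h1.lift_cardinalMk_le_trdeg
  rw [Cardinal.lift_id, Cardinal.lift_id, Cardinal.mk_fintype] at h2
  exact h2

/-- the choice of the set `I` and the equations -/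
lemma alg2 (z y : Fin n → ℂ) (m : ℕ)
    (h : Algebra.trdeg F (IntermediateField.adjoin F (range z ∪ range y)) ≤
      Algebra.trdeg F (IntermediateField.adjoin F (range z)) + m) :
    ∃ I : Finset (Fin n), I.card ≤ m ∧ ∀ j, ∃ (d : ℕ) (P : (MvPolynomial (Fin n ⊕ ↥I) F)[X]),
      (∑ l ∈ Finset.range (d + 1),
        MvPolynomial.aeval (Sum.elim z (fun i : ↥I => y i)) (P.coeff l) * y j ^ l = 0) ∧
      MvPolynomial.aeval (Sum.elim z (fun i : ↥I => y i)) (P.coeff d) ≠ 0 := by
  classical
  obtain ⟨J, hJ, hJt⟩ := alg1 (F := F) z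
  set fam : (I : Finset (Fin n)) → ↥J ⊕ ↥I → ℂ := fun I =>
    Sum.elim (fun j : ↥J => z j) (fun i : ↥I => y i) with hfam
  obtain ⟨I, hI, hmax⟩ := Finset.exists_max_image
    (Finset.univ.filter (fun I : Finset (Fin n) => AlgebraicIndependent F (fam I)))
    Finset.card ⟨∅, by
      rw [Finset.mem_filter]
      refine ⟨Finset.mem_univ _, ?_⟩
      have he : IsEmpty ↥(∅ : Finset (Fin n)) := ⟨fun i => absurd i.2 (Finset.notMem_empty _)⟩
      have h1 : fam ∅ = (fun j : ↥J => z j) ∘ (Sum.elim id fun i => (he.false i).elim) := by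
        funext i
        rcases i with i | i
        · rfl
        · exact (he.false i).elim
      rw [h1]
      refine hJ.comp _ ?_
      rintro (a | a) (b | b) hab
      · exact congrArg Sum.inl hab
      · exact (he.false b).elim
      · exact (he.false a).elim
      · exact (he.false a).elim⟩
  rw [Finset.mem_filter] at hI
  refine ⟨I, ?_, ?_⟩
  · have h1 := indep_le (IntermediateField.adjoin F (range z ∪ range y)) (x := fam I) (by
      rintro (i | i)
      · exact IntermediateField.subset_adjoin _ _ (Or.inl ⟨_, rfl⟩)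
      · exact IntermediateField.subset_adjoin _ _ (Or.inr ⟨_, rfl⟩)) hI.2
    have h2 := h1.trans (h.trans (add_le_add_left hJt _))
    rw [Fintype.card_sum, Fintype.card_coe, Fintype.card_coe] at h2
    have h3 : J.card + I.card ≤ J.card + m := by exact_mod_cast h2
    omega
  · intro j
    have hren : ∀ p : MvPolynomial (↥J ⊕ ↥I) F,
        MvPolynomial.aeval (Sum.elim z (fun i : ↥I => y i))
          (MvPolynomial.rename (Sum.map (fun j : ↥J => (j : Fin n)) id) p) =
        MvPolynomial.aeval (fam I) p := by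
      intro p
      rw [MvPolynomial.aeval_rename]
      congr 2
      funext i
      rcases i with i | i <;> rfl
    by_cases hj : j ∈ I
    · refine ⟨1, Polynomial.X - Polynomial.C (MvPolynomial.X (Sum.inr ⟨j, hj⟩)), ?_, ?_⟩
      · rw [Finset.sum_range_succ, Finset.sum_range_one]
        simp
      · simp
    · obtain ⟨d, P, h1, h2⟩ := rel (y := y j) hI.2 (by
        intro h2
        have h3 := hmax (insert j I) (by
          rw [Finset.mem_filter]
          refine ⟨Finset.mem_univ _, ?_⟩
          have h4 : fam (insert j I) = (fun o : Option (↥J ⊕ ↥I) => o.elim (y j) (fam I)) ∘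
              (Sum.elim (fun i => some (Sum.inl i)) (fun i : ↥(insert j I) =>
                if h : (i : Fin n) = j then none else
                some (Sum.inr ⟨i, (Finset.mem_insert.1 i.2).resolve_left h⟩))) := by
            funext i
            rcases i with i | ⟨i, hi⟩
            · rfl
            · by_cases h : i = j
              · subst h
                simp [hfam]
              · simp [hfam, h]
          rw [h4]
          refine h2.comp _ ?_
          rintro (a | ⟨a, ha⟩) (b | ⟨b, hb⟩) hab
          · simpa using hab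
          · by_cases hbj : b = j <;> simp [hbj] at hab
          · by_cases haj : a = j <;> simp [haj] at hab
          · by_cases h1 : a = j <;> by_cases h2 : b = j <;> simp_all)
        rw [Finset.card_insert_of_notMem hj] at h3
        omega)
      refine ⟨d, P.map (MvPolynomial.rename (Sum.map (fun j : ↥J => (j : Fin n)) id) :
        MvPolynomial (↥J ⊕ ↥I) F →ₐ[F] MvPolynomial (Fin n ⊕ ↥I) F).toRingHom, ?_, ?_⟩
      · rw [← h1]
        refine Finset.sum_congr rfl fun l _ => ?_
        rw [Polynomial.coeff_map]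
        congr 1
        exact hren _
      · rw [Polynomial.coeff_map]
        intro h3
        exact h2 ((hren _).symm.trans h3)

lemma mvc (σ : Type) [Countable σ] [Countable F] : Countable (MvPolynomial σ F) := by
  rw [← Cardinal.mk_le_aleph0_iff]
  refine (MvPolynomial.cardinalMk_le_max).trans ?_
  have h1 : Cardinal.mk F ≤ Cardinal.aleph0 := Cardinal.mk_le_aleph0_iff.2 inferInstance
  have h2 : Cardinal.mk σ ≤ Cardinal.aleph0 := Cardinal.mk_le_aleph0_iff.2 inferInstance
  exact max_le (max_le h1 h2) le_rfl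

lemma pc (R : Type) [CommRing R] [Countable R] : Countable R[X] := by
  rw [← Cardinal.mk_le_aleph0_iff]
  refine (Polynomial.cardinalMk_le_max).trans ?_
  exact max_le (Cardinal.mk_le_aleph0_iff.2 inferInstance) le_rfl

/-- the set of the points with given equations -/
lemma SI_thin {g : Fin n → ℂ → ℂ} (hg : ∀ i, Dvb (g i)) {m : ℕ} {I : Finset (Fin n)}
    (hI : I.card ≤ m) (d : Fin n → ℕ) (a : Fin n → ℕ → MvPolynomial (Fin n ⊕ ↥I) F) :
    Thin m (SI g I d a) := by
  have henv : ∀ i, AnalyticOnNhd ℂ (fun z : Fin n → ℂ => envI g I z i) univ := by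
    rintro (i | i)
    · exact (ContinuousLinearMap.proj (R := ℂ) (φ := fun _ : Fin n => ℂ) i).analyticOnNhd _
    · exact fun z _ => AnalyticAt.comp (g := g i) (f := fun z : Fin n → ℂ => z i)
        ((hg i).1.analyticAt (z i))
        ((ContinuousLinearMap.proj (R := ℂ) (φ := fun _ : Fin n => ℂ) (i : Fin n)).analyticAt z)
  have hpol : ∀ P : MvPolynomial (Fin n ⊕ ↥I) F,
      AnalyticOnNhd ℂ (fun z : Fin n → ℂ => MvPolynomial.aeval (envI g I z) P) univ := fun P =>
    AnalyticOnNhd.aeval_mvPolynomial (A := F) henv P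
  set V : Set (Fin n → ℂ) := {z | ∀ j, MvPolynomial.aeval (envI g I z) (a j (d j)) ≠ 0} with hV
  have hVo : IsOpen V := by
    have : V = ⋂ j, {z : Fin n → ℂ | MvPolynomial.aeval (envI g I z) (a j (d j)) ≠ 0} := by
      ext z
      simp only [hV, mem_iInter]
      rfl
    rw [this]
    refine isOpen_iInter_of_finite fun j => ?_
    exact isOpen_ne_fun (continuousOn_univ.1 (hpol _).continuousOn) continuous_const
  set h : Fin n → (Fin n → ℂ) → ℂ := fun j z => ∑ l ∈ Finset.range (d j + 1),
    MvPolynomial.aeval (envI g I z) (a j l) * g j (z j) ^ l with hh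
  have han : ∀ j, AnalyticOnNhd ℂ (h j) V := by
    intro j
    have h1 : AnalyticOnNhd ℂ (fun z : Fin n → ℂ => g j (z j)) univ := fun z _ =>
      AnalyticAt.comp (g := g j) (f := fun z : Fin n → ℂ => z j) ((hg j).1.analyticAt (z j))
        ((ContinuousLinearMap.proj (R := ℂ) (φ := fun _ : Fin n => ℂ) j).analyticAt z)
    have h2 : AnalyticOnNhd ℂ (h j) univ := by
      rw [hh]
      exact Finset.analyticOnNhd_fun_sum _ fun l _ => AnalyticOnNhd.mul (hpol _) (h1.pow l)
    exact h2.mono (subset_univ _)
  have hZ : {x : Fin n → ℂ | x ∈ V ∧ ∀ k, h k x = 0} = SI g I d a := by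
    ext z
    constructor
    · rintro ⟨h1, h2⟩ j
      exact ⟨h2 j, h1 j⟩
    · intro h1
      exact ⟨fun j => (h1 j).2, fun j => (h1 j).1⟩
  have hth := thin_nopiece m n (Fin n) (Fintype.card_fin n) (Fin n) V h hVo han
  rw [hZ] at hth
  refine hth.mono fun z hz => ?_
  refine ⟨fun j => (hz j).2, fun j => (hz j).1, no_piece hg hI d a z⟩

/-- **The theorem for points.** -/
theorem points [Countable F] {g : Fin n → ℂ → ℂ} (hg : ∀ i, Dvb (g i)) (m : ℕ) :
    Thin m {z : Fin n → ℂ |
      Algebra.trdeg F (IntermediateField.adjoin F (range z ∪ range fun i => g i (z i))) ≤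
        Algebra.trdeg F (IntermediateField.adjoin F (range z)) + m} := by
  have hsub : {z : Fin n → ℂ |
      Algebra.trdeg F (IntermediateField.adjoin F (range z ∪ range fun i => g i (z i))) ≤
        Algebra.trdeg F (IntermediateField.adjoin F (range z)) + m} ⊆
      ⋃ I : Finset (Fin n), ⋃ d : Fin n → ℕ, ⋃ P : Fin n → (MvPolynomial (Fin n ⊕ ↥I) F)[X],
        ⋃ (_ : I.card ≤ m), SI g I d (fun j l => (P j).coeff l) := by
    intro z hz
    obtain ⟨I, hI, h1⟩ := alg2 z (fun i => g i (z i)) m hz
    choose d P h2 h3 using h1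
    refine mem_iUnion.2 ⟨I, mem_iUnion.2 ⟨d, mem_iUnion.2 ⟨P, mem_iUnion.2 ⟨hI, fun j => ?_⟩⟩⟩⟩
    exact ⟨h2 j, h3 j⟩
  refine Thin.mono ?_ hsub
  refine thin_union fun I => thin_union fun d => ?_
  have e1 : Countable (MvPolynomial (Fin n ⊕ ↥I) F) := mvc _
  have e2 : Countable (MvPolynomial (Fin n ⊕ ↥I) F)[X] := pc _
  exact thin_union fun P => thin_union fun hI => SI_thin hg hI d _

end Pool.Agent.J4H69.AX
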