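import Pool.Agent.J4H69.AX.Fun
import Pool.Agent.J4H69.AX.Pts

set_option autoImplicit false

/-!
The reciprocal of the Gamma function satisfies the hypotheses of the preceding theorems.
-/

namespace Pool.Agent.J4H69.AX

open Filter Topology Set Metric
open scoped ContDiff

/-- dividing off zeros of the reciprocal of the Gamma function -/
lemma gam_shift (M : ℕ) (x : ℂ) :
    (Complex.Gamma x)⁻¹ = (∏ j : Fin M, (x - -((j : ℕ) : ℂ))) * (Complex.Gamma (x + M))⁻¹ := by
  induction M with
  | zero => simp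
  | succ M ih =>
    rw [ih, Fin.prod_univ_castSucc, Complex.one_div_Gamma_eq_self_mul_one_div_Gamma_add_one (x + M)]
    simp only [Fin.val_castSucc, Fin.val_last]
    push_cast
    rw [show x + ((M : ℂ) + 1) = x + M + 1 by ring]
    ring

/-- the reciprocal of the Gamma function -/
theorem gam_dvb : Dvb (fun w => (Complex.Gamma w)⁻¹) := by
  refine ⟨Complex.differentiable_one_div_Gamma, fun w D => ?_⟩
  set M : ℕ := D + (⌈|w.re|⌉₊ + 1) with hM
  refine ⟨M, fun j => -((j : ℕ) : ℂ), fun x => (Complex.Gamma (x + M))⁻¹, by omega, ?_,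
    fun x => gam_shift M x, ?_⟩
  · exact Complex.differentiable_one_div_Gamma.comp (differentiable_id.add_const _)
  · refine inv_ne_zero (Complex.Gamma_ne_zero_of_re_pos ?_)
    rw [Complex.add_re, Complex.natCast_re, hM]
    push_cast
    have h1 : |w.re| ≤ (⌈|w.re|⌉₊ : ℝ) := Nat.le_ceil _
    have h2 := neg_abs_le w.re
    have h3 : (0 : ℝ) ≤ D := Nat.cast_nonneg D
    linarith

/-- substitution of an affine function -/
lemma dvb_affine {g : ℂ → ℂ} (hg : Dvb g) {a b : ℂ} (ha : a ≠ 0) : Dvb (fun w => g (a * w + b)) := by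
  refine ⟨hg.1.comp ((differentiable_id.const_mul a).add_const b), fun w D => ?_⟩
  obtain ⟨M, r, k, hM, hk, hgk, hw⟩ := hg.2 (a * w + b) D
  refine ⟨M, fun j => (r j - b) / a, fun x => a ^ M * k (a * x + b), hM, ?_, ?_, ?_⟩
  · exact (hk.comp ((differentiable_id.const_mul a).add_const b)).const_mul _
  · intro x
    change g (a * x + b) = _
    rw [hgk]
    have h1 : ∏ j, (a * x + b - r j) = a ^ M * ∏ j, (x - (r j - b) / a) := by
      have h2 : (a ^ M : ℂ) = ∏ _j : Fin M, a := by simp
      rw [h2, ← Finset.prod_mul_distrib]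
      refine Finset.prod_congr rfl fun j _ => ?_
      field_simp
      ring
    rw [h1]
    ring
  · exact mul_ne_zero (pow_ne_zero _ ha) hw

/-- inverting the variables -/
lemma ginvert {σ R : Type} [Fintype σ] [CommRing R] (P : MvPolynomial σ R) :
    ∃ P' : MvPolynomial σ R, ∀ ev : R →+* ℂ, (P.map ev ≠ 0 → P'.map ev ≠ 0) ∧
      ∀ y y' : σ → ℂ, (∀ s, y' s * y s = 1) →
        MvPolynomial.eval y' (P'.map ev) =
          (∏ s, y' s ^ P.totalDegree) * MvPolynomial.eval y (P.map ev) := by
  classical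
  set N := P.totalDegree with hN
  have hle : ∀ m ∈ P.support, ∀ s, m s ≤ N := by
    intro m hm s
    have h1 : (m.sum fun _ e => e) ≤ N := MvPolynomial.le_totalDegree hm
    by_cases hs : s ∈ m.support
    · exact (Finset.single_le_sum (f := fun s => m s) (fun _ _ => Nat.zero_le _) hs).trans h1
    · rw [Finsupp.notMem_support_iff.1 hs]
      exact Nat.zero_le _
  set φ : (σ →₀ ℕ) → (σ →₀ ℕ) := fun m =>
    Finsupp.equivFunOnFinite.symm (fun s => N - m s) with hφ
  have hφs : ∀ m s, φ m s = N - m s := fun m s => by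
    simp only [hφ, Finsupp.coe_equivFunOnFinite_symm]
  have hφi : ∀ m ∈ P.support, ∀ m' ∈ P.support, φ m = φ m' → m = m' := by
    intro m hm m' hm' h
    ext s
    have h1 := DFunLike.congr_fun h s
    rw [hφs, hφs] at h1
    have := hle m hm s
    have := hle m' hm' s
    omega
  refine ⟨∑ m ∈ P.support, MvPolynomial.monomial (φ m) (P.coeff m), fun ev => ⟨?_, ?_⟩⟩
  · intro hP h0
    obtain ⟨m₀, hm₀⟩ := MvPolynomial.ne_zero_iff.1 hP
    rw [MvPolynomial.coeff_map] at hm₀
    have hm₀' : m₀ ∈ P.support := by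
      rw [MvPolynomial.mem_support_iff]
      intro h
      rw [h, map_zero] at hm₀
      exact hm₀ rfl
    have h1 := congrArg (MvPolynomial.coeff (φ m₀)) h0
    rw [map_sum, MvPolynomial.coeff_sum, MvPolynomial.coeff_zero, Finset.sum_eq_single m₀] at h1
    · rw [MvPolynomial.map_monomial, MvPolynomial.coeff_monomial, if_pos rfl] at h1
      exact hm₀ h1
    · intro m hm hne
      rw [MvPolynomial.map_monomial, MvPolynomial.coeff_monomial, if_neg]
      intro h
      exact hne (hφi m hm m₀ hm₀' h)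
    · intro h
      exact absurd hm₀' h
  · intro y y' h1
    rw [map_sum, map_sum]
    conv_rhs => rw [P.as_sum, map_sum, map_sum, Finset.mul_sum]
    refine Finset.sum_congr rfl fun m hm => ?_
    rw [MvPolynomial.map_monomial, MvPolynomial.map_monomial, MvPolynomial.eval_monomial,
      MvPolynomial.eval_monomial, Finsupp.prod_fintype _ _ (fun i => pow_zero _),
      Finsupp.prod_fintype _ _ (fun i => pow_zero _)]
    have h2 : ∏ s, y' s ^ (φ m) s = (∏ s, y' s ^ N) * ∏ s, y s ^ m s := by
      rw [← Finset.prod_mul_distrib]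
      refine Finset.prod_congr rfl fun s _ => ?_
      rw [hφs]
      have h3 := hle m hm s
      have h4 : y' s ^ N = y' s ^ (N - m s) * y' s ^ m s := by
        rw [← pow_add]
        congr 1
        omega
      rw [h4, mul_assoc, ← mul_pow, h1, one_pow, mul_one]
    rw [h2]
    ring

/-- passing from the reciprocal of the Gamma function to the Gamma function -/
lemma ind_gam {n : ℕ} {T : Type} {D : Set T} {f : Fin n → T → ℂ} {J : Finset (Fin n)}
    (h : Ind D f (fun i t => (Complex.Gamma (f i t))⁻¹) J)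
    (P : MvPolynomial ↥J (MvPolynomial (Fin n) ℂ))
    (hP : ∃ t ∈ D, P.map (MvPolynomial.eval fun i => f i t) ≠ 0) :
    ∃ t ∈ D, (∀ j ∈ J, ∀ k : ℕ, f j t ≠ -k) ∧
      MvPolynomial.eval (fun j : ↥J => Complex.Gamma (f j t))
        (P.map (MvPolynomial.eval fun i => f i t)) ≠ 0 := by
  classical
  obtain ⟨t₀, ht₀, hP⟩ := hP
  obtain ⟨P', hP'⟩ := ginvert P
  obtain ⟨t, ht, h1⟩ := h (P' * ∏ j : ↥J, MvPolynomial.X j) ⟨t₀, ht₀, by
    rw [map_mul, map_prod]
    refine mul_ne_zero ((hP' _).1 hP) (Finset.prod_ne_zero_iff.2 fun j _ => ?_)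
    rw [MvPolynomial.map_X]
    exact MvPolynomial.X_ne_zero j⟩
  rw [map_mul, map_mul, map_prod, map_prod] at h1
  have h2 : ∀ j : ↥J, (Complex.Gamma (f j t))⁻¹ ≠ 0 := by
    intro j
    have h3 := right_ne_zero_of_mul h1
    have h4 := Finset.prod_ne_zero_iff.1 h3 j (Finset.mem_univ _)
    rw [MvPolynomial.map_X, MvPolynomial.eval_X] at h4
    exact h4
  refine ⟨t, ht, ?_, ?_⟩
  · intro j hj k hk
    apply h2 ⟨j, hj⟩
    rw [inv_eq_zero, Complex.Gamma_eq_zero_iff]
    exact ⟨k, hk⟩
  · have h3 := left_ne_zero_of_mul h1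
    rw [(hP' _).2 (fun j : ↥J => Complex.Gamma (f j t)) _ (fun j => by
      have h4 := h2 j
      rw [Ne, inv_eq_zero] at h4
      exact inv_mul_cancel₀ h4)] at h3
    exact right_ne_zero_of_mul h3

/-- the two fields agree -/
lemma adjoin_gam {F : Type} [Field F] [Algebra F ℂ] {n : ℕ} (z : Fin n → ℂ) :
    IntermediateField.adjoin F (range z ∪ range fun i => (Complex.Gamma (z i))⁻¹) =
      IntermediateField.adjoin F (range z ∪ range fun i => Complex.Gamma (z i)) := by
  apply le_antisymm
  · rw [IntermediateField.adjoin_le_iff]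
    rintro x (⟨i, rfl⟩ | ⟨i, rfl⟩)
    · exact IntermediateField.subset_adjoin _ _ (Or.inl ⟨i, rfl⟩)
    · exact inv_mem (IntermediateField.subset_adjoin F _ (Or.inr ⟨i, rfl⟩))
  · rw [IntermediateField.adjoin_le_iff]
    rintro x (⟨i, rfl⟩ | ⟨i, rfl⟩)
    · exact IntermediateField.subset_adjoin _ _ (Or.inl ⟨i, rfl⟩)
    · have h : (Complex.Gamma (z i))⁻¹ ∈ IntermediateField.adjoin F
          (range z ∪ range fun i => (Complex.Gamma (z i))⁻¹) :=
        IntermediateField.subset_adjoin F _ (Or.inr ⟨i, rfl⟩)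
      have h2 := inv_mem h
      rw [inv_inv] at h2
      exact h2

theorem points_gam (F : Type) [Field F] [Algebra F ℂ] [Countable F] (n m : ℕ) :
    Thin m {z : Fin n → ℂ |
      Algebra.trdeg F (IntermediateField.adjoin F
        (range z ∪ range fun i => Complex.Gamma (z i))) ≤
        Algebra.trdeg F (IntermediateField.adjoin F (range z)) + m} := by
  have h := points (F := F) (g := fun (_ : Fin n) w => (Complex.Gamma w)⁻¹) (fun _ => gam_dvb) m
  refine h.mono fun z hz => ?_
  have e : Algebra.trdeg F (IntermediateField.adjoin F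
      (range z ∪ range fun i => (Complex.Gamma (z i))⁻¹)) =
      Algebra.trdeg F (IntermediateField.adjoin F
        (range z ∪ range fun i => Complex.Gamma (z i))) :=
    congrArg (fun K : IntermediateField F ℂ => Algebra.trdeg F K) (adjoin_gam z)
  exact e.le.trans hz

end Pool.Agent.J4H69.AX
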