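import Pool.Agent.J4H69.AX.Cls

set_option autoImplicit false

/-!
An analytic map from an open subset of `ℂ ^ N` to `ℂ ^ k`, `k < N`, has an uncountable level set.
Pieces of dimension `m + 1` cannot satisfy equations which express all `g_i (z_i)` algebraically
through `z` and `m` of them.
-/

namespace Pool.Agent.J4H69.AX

open Filter Topology Set Metric
open scoped ContDiff

/-- uncountable level sets -/
theorem fiber : ∀ (r : ℕ) (ι κ : Type) [Fintype ι] [DecidableEq ι] [Fintype κ] [DecidableEq κ],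
    Fintype.card κ = r → r < Fintype.card ι → ∀ (W : Set (ι → ℂ)) (u : κ → (ι → ℂ) → ℂ),
    IsOpen W → W.Nonempty → (∀ k, AnalyticOnNhd ℂ (u k) W) →
    ∃ c : κ → ℂ, ¬ {s ∈ W | ∀ k, u k s = c k}.Countable := by
  intro r
  induction r with
  | zero =>
    intro ι κ _ _ _ _ hκ hι W u hW hne _
    have hemp : IsEmpty κ := Fintype.card_eq_zero_iff.1 hκ
    have hnon : Nonempty ι := Fintype.card_pos_iff.1 hι
    refine ⟨fun _ => 0, fun hc => ?_⟩
    have h1 : {s ∈ W | ∀ k, u k s = 0} = W := by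
      ext s
      exact ⟨fun h => h.1, fun h => ⟨h, fun k => (hemp.false k).elim⟩⟩
    rw [h1] at hc
    obtain ⟨x, hx, hx'⟩ := (hc.dense_compl ℂ).inter_open_nonempty W hW hne
    exact hx' hx
  | succ r ih =>
    intro ι κ _ _ _ _ hκ hι W u hW hne hu
    have hnκ : Nonempty κ := Fintype.card_pos_iff.1 (by omega)
    obtain ⟨k0⟩ := hnκ
    have hcardκ : Fintype.card {k : κ // k ≠ k0} = r := by
      have := Fintype.card_subtype_compl (fun j => j = k0)
      rw [Fintype.card_subtype_eq] at this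
      have e : Fintype.card {k : κ // k ≠ k0} = Fintype.card {k : κ // ¬ k = k0} := rfl
      rw [e, this]
      omega
    obtain ⟨x0, hx0⟩ := hne
    obtain ⟨ε, hε, hball⟩ := Metric.isOpen_iff.1 hW x0 hx0
    by_cases hder : ∀ x ∈ ball x0 ε, fderiv ℂ (u k0) x = 0
    · obtain ⟨c, hc⟩ := ih ι {k : κ // k ≠ k0} hcardκ (by omega) (ball x0 ε) (fun k => u k.1)
        isOpen_ball ⟨x0, mem_ball_self hε⟩ (fun k => (hu k.1).mono hball)
      have hconst : ∀ x ∈ ball x0 ε, u k0 x = u k0 x0 := by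
        intro x hx
        exact isOpen_ball.is_const_of_fderiv_eq_zero (convex_ball x0 ε).isPreconnected
          (fun y hy => ((hu k0) y (hball hy)).differentiableAt.differentiableWithinAt)
          (fun y hy => hder y hy) hx (mem_ball_self hε)
      refine ⟨fun k => if hk : k = k0 then u k0 x0 else c ⟨k, hk⟩, fun hcon => hc (hcon.mono ?_)⟩
      rintro s ⟨hs, hsc⟩
      refine ⟨hball hs, fun k => ?_⟩
      by_cases hk : k = k0
      · subst hk
        simp only [dite_true]
        exact hconst s hs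
      · simp only [hk, dite_false]
        exact hsc ⟨k, hk⟩
    · push Not at hder
      obtain ⟨x, hx, hx1⟩ := hder
      have hxW := hball hx
      have hu' : AnalyticAt ℂ (fun y => u k0 y - u k0 x) x := (hu k0 x hxW).sub analyticAt_const
      have hfd : fderiv ℂ (fun y => u k0 y - u k0 x) x ≠ 0 := by
        rw [fderiv_sub_const]
        exact hx1
      obtain ⟨i, Ψ, V', b1, b2, b3, b4, b5, b6⟩ := level hW hxW hu' (sub_self _) hfd
      have hcardι : Fintype.card {j : ι // j ≠ i} + 1 = Fintype.card ι := by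
        have := Fintype.card_subtype_compl (fun j => j = i)
        rw [Fintype.card_subtype_eq] at this
        have e : Fintype.card {j : ι // j ≠ i} = Fintype.card {j : ι // ¬ j = i} := rfl
        rw [e, this]
        omega
      obtain ⟨c, hc⟩ := ih {j : ι // j ≠ i} {k : κ // k ≠ k0} hcardκ (by omega) V'
        (fun k y => u k.1 (Ψ y)) b1 ⟨_, b2⟩
        (fun k y hy => (hu k.1 _ (b5 y hy).1).comp (b3 y hy))
      refine ⟨fun k => if hk : k = k0 then u k0 x else c ⟨k, hk⟩, fun hcon => hc ?_⟩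
      have hinj : InjOn Ψ {s ∈ V' | ∀ k : {k : κ // k ≠ k0}, u k.1 (Ψ s) = c k} := by
        rintro s ⟨hs, -⟩ t ⟨ht, -⟩ hst
        rw [← (b5 s hs).2.2, ← (b5 t ht).2.2, hst]
      refine Set.countable_of_injective_of_countable_image hinj (hcon.mono ?_)
      rintro _ ⟨s, ⟨hs, hsc⟩, rfl⟩
      refine ⟨(b5 s hs).1, fun k => ?_⟩
      by_cases hk : k = k0
      · subst hk
        simp only [dite_true]
        exact sub_eq_zero.1 (b5 s hs).2.1
      · simp only [hk, dite_false]
        exact hsc ⟨k, hk⟩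

variable {F : Type} [Field F] [Algebra F ℂ] {n : ℕ}

/-- the point `(z, g_I (z_I))` -/
def envI (g : Fin n → ℂ → ℂ) (I : Finset (Fin n)) (z : Fin n → ℂ) : Fin n ⊕ ↥I → ℂ :=
  Sum.elim z (fun i => g i (z i))

/-- the points at which all `g_j (z_j)` are expressed algebraically through `z` and the `g_i (z_i)`,
`i ∈ I` -/
def SI (g : Fin n → ℂ → ℂ) (I : Finset (Fin n)) (d : Fin n → ℕ)
    (a : Fin n → ℕ → MvPolynomial (Fin n ⊕ ↥I) F) : Set (Fin n → ℂ) :=
  {z | ∀ j, (∑ l ∈ Finset.range (d j + 1),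
    MvPolynomial.aeval (envI g I z) (a j l) * g j (z j) ^ l = 0) ∧
    MvPolynomial.aeval (envI g I z) (a j (d j)) ≠ 0}

lemma subst_aeval (I : Finset (Fin n)) (c : ↥I → ℂ) (z : Fin n → ℂ)
    (P : MvPolynomial (Fin n ⊕ ↥I) F) :
    MvPolynomial.aeval z (MvPolynomial.aeval (Sum.elim MvPolynomial.X fun i => MvPolynomial.C (c i) :
      Fin n ⊕ ↥I → MvPolynomial (Fin n) ℂ) P) = MvPolynomial.aeval (Sum.elim z c) P := by
  induction P using MvPolynomial.induction_on with
  | C r =>
    simp only [MvPolynomial.aeval_C]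
    rw [IsScalarTower.algebraMap_apply F ℂ (MvPolynomial (Fin n) ℂ)]
    simp
  | add p q hp hq => simp only [map_add, hp, hq]
  | mul_X p i hp =>
    simp only [map_mul, hp, MvPolynomial.aeval_X]
    congr 1
    rcases i with i | i <;> simp

/-- **No pieces of dimension `m + 1`.** -/
theorem no_piece {g : Fin n → ℂ → ℂ} (hg : ∀ i, Dvb (g i)) {m : ℕ} {I : Finset (Fin n)}
    (hI : I.card ≤ m) (d : Fin n → ℕ) (a : Fin n → ℕ → MvPolynomial (Fin n ⊕ ↥I) F) (x : Fin n → ℂ) :
    ¬ HasPiece m (SI g I d a) x := by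
  rintro ⟨φ, h1, h2, h3, h4⟩
  obtain ⟨W, hW, h0W, hinj⟩ := inj_near h1 h3
  obtain ⟨ε, hε, hball⟩ := Metric.eventually_nhds_iff_ball.1
    (h1.eventually_analyticAt.and (h4.and (hW.mem_nhds h0W)))
  obtain ⟨c, hc⟩ := fiber I.card (Fin (m + 1)) ↥I (Fintype.card_coe I)
    (by rw [Fintype.card_fin]; omega) (ball 0 ε) (fun i s => φ s i) isOpen_ball
    ⟨0, mem_ball_self hε⟩ (fun i s hs => by
      have := (hball s hs).1
      exact (analyticAt_pi_iff.1 this) i)
  apply hc
  have hcount := cls hg d (fun j l => MvPolynomial.aeval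
    (Sum.elim MvPolynomial.X fun i : ↥I => MvPolynomial.C (g i (c i)) :
      Fin n ⊕ ↥I → MvPolynomial (Fin n) ℂ) (a j l))
  have hinj' : InjOn φ {s ∈ ball (0 : Fin (m + 1) → ℂ) ε | ∀ k : ↥I, φ s k = c k} :=
    hinj.mono fun s hs => (hball s hs.1).2.2
  refine Set.countable_of_injective_of_countable_image hinj' (hcount.mono ?_)
  rintro _ ⟨s, ⟨hs, hsc⟩, rfl⟩
  have h5 := (hball s hs).2.1
  have h6 : envI g I (φ s) = Sum.elim (φ s) (fun i : ↥I => g i (c i)) := by
    unfold envI
    congr 1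
    funext i
    rw [hsc i]
  refine ⟨fun j => ?_, fun j => ?_⟩
  · have h7 := (h5 j).1
    rw [h6] at h7
    rw [← h7]
    refine Finset.sum_congr rfl fun l _ => ?_
    rw [subst_aeval]
  · have h7 := (h5 j).2
    rw [h6] at h7
    rw [subst_aeval]
    exact h7

end Pool.Agent.J4H69.AX
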