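import Pool.Agent.TH814.GD.Dim
import Pool.Agent.J4H69.AX.Max

set_option autoImplicit false

/-!
The points of an analytic set through which there is no immersed piece of dimension `m + 1` are
covered by countably many analytic images of open subsets of `ℂ ^ m`.
(Parts of this file are adapted from `Pool.Agent.TH814.GD.Thin`.)
-/

namespace Pool.Agent.J4H69.AX

open Filter Topology Set Metric
open scoped ContDiff
open Pool.Agent.TH814.GD (Dv Dv_an exists_Dv)

/-- sets covered by countably many analytic images of open subsets of `ℂ ^ m` -/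
def Thin (m : ℕ) {X : Type} [NormedAddCommGroup X] [NormedSpace ℂ X] (S : Set X) : Prop :=
  ∃ (Φ : ℕ → (Fin m → ℂ) → X) (U : ℕ → Set (Fin m → ℂ)), (∀ k, IsOpen (U k)) ∧
    (∀ k, AnalyticOnNhd ℂ (Φ k) (U k)) ∧ S ⊆ ⋃ k, Φ k '' U k

/-- there is an immersed piece of dimension `m + 1` through `x` in `Z` -/
def HasPiece (m : ℕ) {E : Type} [NormedAddCommGroup E] [NormedSpace ℂ E] (Z : Set E) (x : E) :
    Prop :=
  ∃ φ : (Fin (m + 1) → ℂ) → E, AnalyticAt ℂ φ 0 ∧ φ 0 = x ∧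
    Function.Injective (fderiv ℂ φ 0) ∧ ∀ᶠ s in 𝓝 (0 : Fin (m + 1) → ℂ), φ s ∈ Z

section

variable {X : Type} [NormedAddCommGroup X] [NormedSpace ℂ X] {m : ℕ}

lemma Thin.mono {S T : Set X} (hT : Thin m T) (h : S ⊆ T) : Thin m S := by
  obtain ⟨Φ, U, h1, h2, h3⟩ := hT
  exact ⟨Φ, U, h1, h2, h.trans h3⟩

lemma thin_union {ι : Sort*} [Countable ι] {s : ι → Set X} (h : ∀ i, Thin m (s i)) :
    Thin m (⋃ i, s i) := by
  rcases isEmpty_or_nonempty ι with he | he
  · refine ⟨fun _ _ => 0, fun _ => ∅, fun _ => isOpen_empty, fun _ x hx => hx.elim, ?_⟩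
    rw [iUnion_of_empty]
    exact empty_subset _
  · choose Φ U h1 h2 h3 using h
    obtain ⟨e, he⟩ := exists_surjective_nat ι
    refine ⟨fun k => Φ (e k.unpair.1) k.unpair.2, fun k => U (e k.unpair.1) k.unpair.2,
      fun k => h1 _ _, fun k => h2 _ _, ?_⟩
    intro x hx
    obtain ⟨i, hi⟩ := mem_iUnion.1 hx
    obtain ⟨a, rfl⟩ := he i
    obtain ⟨b, hb⟩ := mem_iUnion.1 (h3 _ hi)
    refine mem_iUnion.2 ⟨Nat.pair a b, ?_⟩
    simp only [Nat.unpair_pair]
    exact hb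

lemma thin_local [SecondCountableTopology X] {S : Set X}
    (h : ∀ x ∈ S, ∃ t ∈ 𝓝[S] x, Thin m t) : Thin m S := by
  choose! t ht hm using h
  obtain ⟨c, hc, hcc, hcov⟩ := TopologicalSpace.countable_cover_nhdsWithin (f := t) (s := S) ht
  have : Countable c := hcc.to_subtype
  refine (thin_union (s := fun x : c => t x) (fun x => hm x (hc x.2))).mono (fun y hy => ?_)
  obtain ⟨x, hx, hyx⟩ := mem_iUnion₂.1 (hcov hy)
  exact mem_iUnion.2 ⟨⟨x, hx⟩, hyx⟩

lemma Thin.image {Y : Type} [NormedAddCommGroup Y] [NormedSpace ℂ Y] {T W : Set X}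
    (hT : Thin m T) (hW : IsOpen W) {Ψ : X → Y} (hΨ : AnalyticOnNhd ℂ Ψ W) :
    Thin m (Ψ '' (T ∩ W)) := by
  obtain ⟨Φ, U, h1, h2, h3⟩ := hT
  refine ⟨fun k => Ψ ∘ Φ k, fun k => U k ∩ Φ k ⁻¹' W,
    fun k => (h2 k).continuousOn.isOpen_inter_preimage (h1 k) hW,
    fun k x hx => (hΨ _ hx.2).comp (h2 k x hx.1), ?_⟩
  rintro _ ⟨x, ⟨hx, hxW⟩, rfl⟩
  obtain ⟨k, y, hy, rfl⟩ := mem_iUnion.1 (h3 hx)
  exact mem_iUnion.2 ⟨k, y, ⟨hy, hxW⟩, rfl⟩

lemma thin_univ (ι : Type) [Fintype ι] (h : Fintype.card ι ≤ m) :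
    Thin m (univ : Set (ι → ℂ)) := by
  classical
  obtain ⟨e⟩ : Nonempty (ι ↪ Fin m) := by
    apply Function.Embedding.nonempty_of_card_le
    rwa [Fintype.card_fin]
  refine ⟨fun _ y i => y (e i), fun _ => univ, fun _ => isOpen_univ, fun _ => ?_, ?_⟩
  · intro y _
    rw [analyticAt_pi_iff]
    intro i
    exact (ContinuousLinearMap.proj (R := ℂ) (φ := fun _ : Fin m => ℂ) (e i)).analyticAt _
  · intro x _
    refine mem_iUnion.2 ⟨0, Function.extend e x 0, mem_univ _, ?_⟩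
    funext i
    exact e.injective.extend_apply _ _ _

lemma thin_zero_countable {S : Set X} (h : Thin 0 S) : S.Countable := by
  obtain ⟨Φ, U, -, -, h3⟩ := h
  refine (countable_iUnion (fun k => ?_)).mono h3
  exact (U k).to_countable.image _

end

section

variable {E : Type} [NormedAddCommGroup E] [NormedSpace ℂ E] [FiniteDimensional ℂ E]

lemma inv_of_ne {L : ℂ →L[ℂ] ℂ} (h : L 1 ≠ 0) : L.IsInvertible := by
  refine ⟨ContinuousLinearEquiv.unitsEquivAut ℂ (Units.mk0 (L 1) h), ?_⟩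
  ext
  simp

/-- the implicit function theorem -/
lemma impl {h : E × ℂ → ℂ} {p : E × ℂ} (hh : AnalyticAt ℂ h p) (h0 : h p = 0)
    (h1 : fderiv ℂ h p (0, 1) ≠ 0) :
    ∃ ψ : E → ℂ, AnalyticAt ℂ ψ p.1 ∧ ψ p.1 = p.2 ∧ (∀ᶠ v in 𝓝 p, h v = 0 → ψ v.1 = v.2) ∧
      ∀ᶠ x in 𝓝 p.1, h (x, ψ x) = 0 := by
  have : CompleteSpace E := FiniteDimensional.complete ℂ E
  have hi : (fderiv ℂ h p ∘L .inr ℂ E ℂ).IsInvertible := by
    apply inv_of_ne
    exact h1
  have cdf : ContDiffAt ℂ ω h p := hh.contDiffAt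
  have h1' : (ω : WithTop ℕ∞) ≠ 0 := by simp
  refine ⟨cdf.implicitFunction h1' hi, (cdf.contDiffAt_implicitFunction h1' hi).analyticAt,
    cdf.implicitFunction_apply_self h1' hi, ?_, ?_⟩
  · filter_upwards [cdf.eventually_apply_eq_iff_implicitFunction h1' hi] with v hv h
    rw [h0] at hv
    exact hv.1 h
  · filter_upwards [cdf.eventually_apply_implicitFunction h1' hi] with x hx
    rw [hx, h0]

end

section

variable {ι : Type} [Fintype ι] [DecidableEq ι]

/-- splitting off one coordinate -/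
noncomputable def JJ (i : ι) : (({j : ι // j ≠ i} → ℂ) × ℂ) →L[ℂ] (ι → ℂ) :=
  ContinuousLinearMap.pi fun j => if h : j = i then ContinuousLinearMap.snd ℂ _ ℂ else
    (ContinuousLinearMap.proj (R := ℂ) (φ := fun _ : {j : ι // j ≠ i} => ℂ) ⟨j, h⟩).comp
      (ContinuousLinearMap.fst ℂ _ ℂ)

omit [Fintype ι] in
lemma JJ_apply (i : ι) (y : {j : ι // j ≠ i} → ℂ) (w : ℂ) (j : ι) :
    JJ i (y, w) j = if h : j = i then w else y ⟨j, h⟩ := by
  unfold JJ
  rw [ContinuousLinearMap.pi_apply]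
  by_cases h : j = i
  · simp only [h, dite_true]
    rfl
  · simp only [h, dite_false]
    rfl

omit [Fintype ι] in
lemma JJ_self (i : ι) (z : ι → ℂ) : JJ i (fun j => z j, z i) = z := by
  funext j
  rw [JJ_apply]
  by_cases h : j = i
  · simp [h]
  · simp [h]

omit [Fintype ι] in
lemma JJ_single (i : ι) : JJ i (0, 1) = Pi.single i 1 := by
  funext j
  rw [JJ_apply]
  by_cases h : j = i
  · subst h
    simp
  · simp [h]

/-- forgetting one coordinate -/
noncomputable def PP (i : ι) : (ι → ℂ) →L[ℂ] ({j : ι // j ≠ i} → ℂ) :=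
  ContinuousLinearMap.pi fun j => ContinuousLinearMap.proj (R := ℂ) (φ := fun _ : ι => ℂ) j.1

omit [Fintype ι] in
lemma PP_JJ (i : ι) (y : {j : ι // j ≠ i} → ℂ) (w : ℂ) : PP i (JJ i (y, w)) = y := by
  funext j
  change JJ i (y, w) j.1 = y j
  rw [JJ_apply, dif_neg j.2]

omit [Fintype ι] [DecidableEq ι] in
/-- the existence of a coordinate in which the derivative is not zero -/
lemma exists_coord [Finite ι] [DecidableEq ι] {L : (ι → ℂ) →L[ℂ] ℂ} (h : L ≠ 0) :
    ∃ i, L (Pi.single i 1) ≠ 0 := by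
  by_contra hcon
  push Not at hcon
  apply h
  apply ContinuousLinearMap.coe_injective
  apply LinearMap.pi_ext'
  intro i
  apply LinearMap.ext_ring
  simpa using hcon i

/-- the chart of a regular level set -/
lemma level {V : Set (ι → ℂ)} (hV : IsOpen V) {u : (ι → ℂ) → ℂ} {x : ι → ℂ} (hx : x ∈ V)
    (hu : AnalyticAt ℂ u x) (hx0 : u x = 0) (hx1 : fderiv ℂ u x ≠ 0) :
    ∃ (i : ι) (Ψ : ({j : ι // j ≠ i} → ℂ) → (ι → ℂ)) (V' : Set ({j : ι // j ≠ i} → ℂ)),
      IsOpen V' ∧ PP i x ∈ V' ∧ AnalyticOnNhd ℂ Ψ V' ∧ Ψ (PP i x) = x ∧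
      (∀ y ∈ V', Ψ y ∈ V ∧ u (Ψ y) = 0 ∧ PP i (Ψ y) = y) ∧
      ∀ᶠ z in 𝓝 x, PP i z ∈ V' ∧ (u z = 0 → Ψ (PP i z) = z) := by
  obtain ⟨i, hi⟩ := exists_coord hx1
  have hJ : JJ i (fun j => x j, x i) = x := JJ_self i x
  have hua : AnalyticAt ℂ u (JJ i (fun j => x j, x i)) := by rw [hJ]; exact hu
  have han : AnalyticAt ℂ (fun v => u (JJ i v)) (fun j => x j, x i) :=
    hua.comp ((JJ i).analyticAt _)
  have hfd : fderiv ℂ (fun v => u (JJ i v)) (fun j => x j, x i) (0, 1) ≠ 0 := by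
    have e1 : HasFDerivAt u (fderiv ℂ u (JJ i (fun j => x j, x i))) (JJ i (fun j => x j, x i)) :=
      hua.differentiableAt.hasFDerivAt
    have e2 := (e1.comp _ (JJ i).hasFDerivAt).fderiv
    have e3 : fderiv ℂ (fun v => u (JJ i v)) (fun j => x j, x i) =
        (fderiv ℂ u (JJ i (fun j => x j, x i))).comp (JJ i) := e2
    rw [e3, ContinuousLinearMap.comp_apply, JJ_single, hJ]
    exact hi
  obtain ⟨ψ, a1, a2, a3, a4⟩ := impl han (by simp only [hJ]; exact hx0) hfd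
  simp only at a1 a2 a4
  have hcJ : ContinuousAt (fun y => JJ i (y, ψ y)) (fun j : {j : ι // j ≠ i} => x j) :=
    (JJ i).continuous.continuousAt.comp (continuousAt_id.prodMk a1.continuousAt)
  have hΨx : JJ i (fun j : {j : ι // j ≠ i} => x j, ψ (fun j => x j)) = x := by
    rw [a2, JJ_self]
  have hVn : ∀ᶠ y in 𝓝 (fun j : {j : ι // j ≠ i} => x j), JJ i (y, ψ y) ∈ V := by
    apply hcJ.eventually (hV.mem_nhds _)
    simp only [hΨx]
    exact hx
  obtain ⟨ε, hε, hball⟩ := Metric.eventually_nhds_iff_ball.1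
    (a1.eventually_analyticAt.and (hVn.and a4))
  refine ⟨i, fun y => JJ i (y, ψ y), ball (fun j => x j) ε, isOpen_ball, mem_ball_self hε,
    fun y hy => ((JJ i).analyticAt _).comp (analyticAt_id.prod (hball y hy).1), hΨx,
    fun y hy => ⟨(hball y hy).2.1, (hball y hy).2.2, PP_JJ i _ _⟩, ?_⟩
  have hc : Continuous (fun z : ι → ℂ => ((fun j => z j, z i) : ({j : ι // j ≠ i} → ℂ) × ℂ)) :=
    (continuous_pi fun j => continuous_apply _).prodMk (continuous_apply i)
  have hN1 : ∀ᶠ z in 𝓝 x, (u (JJ i (fun j => z j, z i)) = 0 → ψ (fun j => z j) = z i) :=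
    hc.continuousAt.eventually a3
  have hN2 : ∀ᶠ z in 𝓝 x, (fun j : {j : ι // j ≠ i} => z j) ∈
      ball (fun j : {j : ι // j ≠ i} => x j) ε :=
    hc.fst.continuousAt.eventually (Metric.ball_mem_nhds _ hε)
  filter_upwards [hN1, hN2] with z h1 h2
  refine ⟨h2, fun h3 => ?_⟩
  have h4 := h1 (by rw [JJ_self]; exact h3)
  change JJ i (fun j => z j, ψ (fun j => z j)) = z
  rw [h4, JJ_self]

end

/-- the points of an analytic set without a piece of dimension `m + 1` -/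
theorem thin_nopiece (m : ℕ) : ∀ (N : ℕ) (ι : Type) [Fintype ι] [DecidableEq ι],
    Fintype.card ι = N → ∀ (κ : Type) (V : Set (ι → ℂ)) (h : κ → (ι → ℂ) → ℂ), IsOpen V →
    (∀ k, AnalyticOnNhd ℂ (h k) V) →
    Thin m {x ∈ V | (∀ k, h k x = 0) ∧ ¬ HasPiece m {x ∈ V | ∀ k, h k x = 0} x} := by
  intro N
  induction N with
  | zero =>
    intro ι _ _ hN κ V h hV hh
    exact (thin_univ ι (by omega)).mono (subset_univ _)
  | succ N ih =>
    intro ι _ _ hN κ V h hV hh
    by_cases hNm : N + 1 ≤ m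
    · exact (thin_univ ι (by omega)).mono (subset_univ _)
    set Z := {x ∈ V | ∀ k, h k x = 0} with hZ
    -- regular zero sets
    have step : ∀ u : (ι → ℂ) → ℂ, AnalyticOnNhd ℂ u V →
        Thin m {x ∈ V | ((∀ k, h k x = 0) ∧ ¬ HasPiece m Z x) ∧ u x = 0 ∧ fderiv ℂ u x ≠ 0} := by
      intro u hu
      apply thin_local
      rintro x ⟨hx, ⟨hxh, hxp⟩, hx0, hx1⟩
      obtain ⟨i, Ψ, V', b1, b2, b3, b4, b5, b6⟩ := level hV hx (hu x hx) hx0 hx1
      have hcard : Fintype.card {j : ι // j ≠ i} = N := by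
        have := Fintype.card_subtype_compl (fun j => j = i)
        rw [Fintype.card_subtype_eq] at this
        have e : Fintype.card {j : ι // j ≠ i} = Fintype.card {j : ι // ¬ j = i} := rfl
        rw [e, this]
        omega
      have hth := (ih {j : ι // j ≠ i} hcard κ V' (fun k y => h k (Ψ y)) b1
        (fun k y hy => (hh k _ (b5 y hy).1).comp (b3 y hy))).image b1 b3
      refine ⟨_, inter_mem (mem_nhdsWithin_of_mem_nhds b6) self_mem_nhdsWithin, hth.mono ?_⟩
      rintro z ⟨⟨h1, h2⟩, hzV, ⟨hzh, hzp⟩, hz0, -⟩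
      have hΨz := h2 hz0
      refine ⟨PP i z, ⟨⟨h1, ⟨fun k => by rw [hΨz]; exact hzh k, ?_⟩⟩, h1⟩, hΨz⟩
      rintro ⟨φ, c1, c2, c3, c4⟩
      apply hzp
      have hΨa : AnalyticAt ℂ Ψ (φ 0) := by rw [c2]; exact b3 _ h1
      refine ⟨Ψ ∘ φ, hΨa.comp c1, ?_, ?_, ?_⟩
      · change Ψ (φ 0) = z
        rw [c2, hΨz]
      · have e1 : φ =ᶠ[𝓝 0] (PP i) ∘ (Ψ ∘ φ) := by
          filter_upwards [c4] with s hs
          exact (b5 _ hs.1).2.2.symm
        have e2 : HasFDerivAt (Ψ ∘ φ) (fderiv ℂ (Ψ ∘ φ) 0) 0 :=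
          (hΨa.comp c1).differentiableAt.hasFDerivAt
        have e3 : fderiv ℂ φ 0 = (PP i).comp (fderiv ℂ (Ψ ∘ φ) 0) := by
          rw [e1.fderiv_eq]
          exact ((PP i).hasFDerivAt.comp 0 e2).fderiv
        rw [e3, ContinuousLinearMap.coe_comp] at c3
        exact Function.Injective.of_comp c3
      · filter_upwards [c4] with s hs
        exact ⟨(b5 _ hs.1).1, hs.2⟩
    apply thin_local
    rintro x ⟨hx, hxh, hxp⟩
    obtain ⟨ε, hε, hball⟩ := Metric.isOpen_iff.1 hV x hx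
    by_cases hB : ∃ k, ∃ y ∈ ball x ε, h k y ≠ 0
    · obtain ⟨k, y, hy, hy0⟩ := hB
      obtain ⟨v, K, hK⟩ := exists_Dv isOpen_ball (convex_ball x ε).isPreconnected
        ((hh k).mono hball) ⟨y, hy, hy0⟩ (mem_ball_self hε)
      have hnear : ∀ᶠ z in 𝓝 x, Dv (h k) v K z ≠ 0 :=
        (Dv_an (hh k) v K x hx).continuousAt.eventually_ne hK
      refine ⟨_, inter_mem (mem_nhdsWithin_of_mem_nhds hnear) self_mem_nhdsWithin, ?_⟩
      refine (thin_union (s := fun j : ℕ => {x ∈ V | ((∀ k, h k x = 0) ∧ ¬ HasPiece m Z x) ∧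
        Dv (h k) v j x = 0 ∧ fderiv ℂ (Dv (h k) v j) x ≠ 0})
        (fun j => step _ (Dv_an (hh k) v j))).mono ?_
      rintro z ⟨hz1, hz2, hz3⟩
      classical
      have hex : ∃ m, Dv (h k) v m z ≠ 0 := ⟨K, hz1⟩
      have hm := Nat.find_spec hex
      have hm0 : Nat.find hex ≠ 0 := by
        intro h0
        rw [h0] at hm
        exact hm (hz3.1 k)
      obtain ⟨j, hj⟩ := Nat.exists_eq_succ_of_ne_zero hm0
      have hj0 : Dv (h k) v j z = 0 := by
        by_contra hne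
        have := Nat.find_min' hex hne
        omega
      refine mem_iUnion.2 ⟨j, hz2, hz3, hj0, ?_⟩
      rw [hj] at hm
      intro h0
      apply hm
      change fderiv ℂ (Dv (h k) v j) z v = 0
      rw [h0]
      rfl
    · exfalso
      push Not at hB
      apply hxp
      obtain ⟨σ⟩ : Nonempty (Fin (m + 1) ↪ ι) := by
        apply Function.Embedding.nonempty_of_card_le
        rw [Fintype.card_fin]
        omega
      set L : (Fin (m + 1) → ℂ) →L[ℂ] (ι → ℂ) := ContinuousLinearMap.pi fun j =>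
        if hj : ∃ l, σ l = j then
          ContinuousLinearMap.proj (R := ℂ) (φ := fun _ : Fin (m + 1) => ℂ) hj.choose
        else 0 with hL
      have hLσ : ∀ s l, L s (σ l) = s l := by
        intro s l
        have hj : ∃ l', σ l' = σ l := ⟨l, rfl⟩
        rw [hL, ContinuousLinearMap.pi_apply, dif_pos hj]
        change s hj.choose = s l
        rw [σ.injective hj.choose_spec]
      have hder : HasFDerivAt (fun s => x + L s) L 0 := L.hasFDerivAt.const_add x
      refine ⟨fun s => x + L s, analyticAt_const.add (L.analyticAt _), by simp, ?_, ?_⟩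
      · rw [hder.fderiv]
        intro s t hst
        funext l
        rw [← hLσ s l, ← hLσ t l, hst]
      · have hc : ContinuousAt (fun s => x + L s) 0 := hder.continuousAt
        have h1 : ∀ᶠ s in 𝓝 (0 : Fin (m + 1) → ℂ), x + L s ∈ ball x ε := by
          apply hc.eventually (isOpen_ball.mem_nhds _)
          simpa using hε
        filter_upwards [h1] with s hs
        exact ⟨hball hs, fun k => hB k _ hs⟩

end Pool.Agent.J4H69.AX
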